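import Mathlib

/-!
Three abstract lemmas: a two-sided closed partition, a generic set, and bookkeeping.
-/

namespace Pool.Agent.Lib.MP_8fdcc7_lc.Q2

open Set

theorem dec_abs {T Λ ι : Type} (lev : T → Λ) (le : Λ → Λ → Prop) (Tr : ι → T → T → Prop)
    (top sg : T → Prop)
    (dir : ∀ i j, ∃ k, ∀ a b, Tr k a b → Tr i a b ∧ Tr j a b)
    (tr : ∀ i a b c, Tr i a b → Tr i b c → Tr i a c)
    (tri : ∀ x y z w, le z x → le w y → le x y ∨ x = y ∨ le y x)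
    (htop : ∀ a y, top a → ¬ le (lev a) y)
    (N : ∀ a y, le (lev a) y → ∀ i, ∃ b, lev b = y ∧ Tr i a b) :
    ∃ E : Set T, (∀ a, top a → (a ∈ E ↔ sg a)) ∧
      (∀ a y, le (lev a) y → ∀ i, ∃ b, lev b = y ∧ Tr i a b ∧ (a ∈ E ↔ b ∈ E)) ∧
      ∀ S : Set T, (∀ a ∈ S, top a → sg a) →
        (∀ a ∈ S, ∀ y, le (lev a) y → ∀ i, ∃ b ∈ S, lev b = y ∧ Tr i a b) → S ⊆ E := by
  let G : Set T → Prop := fun S => (∀ a ∈ S, top a → sg a) ∧
    ∀ a ∈ S, ∀ y, le (lev a) y → ∀ i, ∃ b ∈ S, lev b = y ∧ Tr i a b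
  let E : Set T := {a | ∃ S, G S ∧ a ∈ S}
  have hE : G E := by
    constructor
    · rintro a ⟨S, hS, ha⟩
      exact hS.1 a ha
    · rintro a ⟨S, hS, ha⟩ y hy i
      obtain ⟨b, hb, h⟩ := hS.2 a ha y hy i
      exact ⟨b, ⟨S, hS, hb⟩, h⟩
  refine ⟨E, fun a ha => ⟨fun h => hE.1 a h ha, fun h => ⟨{a}, ⟨?_, ?_⟩, rfl⟩⟩, ?_,
    fun S h1 h2 a ha => ⟨S, ⟨h1, h2⟩, ha⟩⟩
  · rintro b rfl _
    exact h
  · rintro b rfl y hy
    exact (htop _ _ ha hy).elim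
  intro a y hy i
  by_cases ha : a ∈ E
  · obtain ⟨b, hb, h1, h2⟩ := hE.2 a ha y hy i
    exact ⟨b, h1, h2, iff_of_true ha hb⟩
  by_contra hc
  have hin : ∀ b, lev b = y → Tr i a b → b ∈ E := by
    intro b h1 h2
    by_contra hb
    exact hc ⟨b, h1, h2, iff_of_false ha hb⟩
  refine ha ⟨E ∪ {c | (c = a ∨ Tr i a c) ∧ le (lev c) y}, ⟨?_, ?_⟩, Or.inr ⟨Or.inl rfl, hy⟩⟩
  · rintro c (hc | hc) ht
    · exact hE.1 c hc ht
    · exact (htop _ _ ht hc.2).elim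
  · rintro c (hc | ⟨hc, hcy⟩) z hz j
    · obtain ⟨b, hb, h⟩ := hE.2 c hc z hz j
      exact ⟨b, Or.inl hb, h⟩
    obtain ⟨k, hk⟩ := dir i j
    have hac : ∀ b, Tr k c b → Tr i a b := by
      intro b hb
      rcases hc with rfl | hc
      · exact (hk _ _ hb).1
      · exact tr _ _ _ _ hc (hk _ _ hb).1
    rcases tri z y _ _ hz hy with h | h | h
    · obtain ⟨b, h1, h2⟩ := N c z hz k
      exact ⟨b, Or.inr ⟨Or.inr (hac b h2), h1 ▸ h⟩, h1, (hk _ _ h2).2⟩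
    · obtain ⟨b, h1, h2⟩ := N c z hz k
      exact ⟨b, Or.inl (hin b (h1.trans h) (hac b h2)), h1, (hk _ _ h2).2⟩
    · obtain ⟨b, h1, h2⟩ := N c y hcy k
      obtain ⟨e, he, e1, e2⟩ := hE.2 b (hin b h1 (hac b h2)) z (h1 ▸ h) k
      exact ⟨e, Or.inl he, e1, (hk _ _ (tr _ _ _ _ h2 e2)).2⟩

theorem gen_abs {τ β : Type} [Countable τ] [Nonempty τ] (P : τ → Finset ℕ) (Q : β → Finset ℕ)
    (R : τ → β → Prop) (h : ∀ t n, ∃ b, R t b ∧ ∀ m ∈ Q b, m ∉ P t → n ≤ m)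
    (Z : ℕ → Set ℕ) (hZ : ∀ i, (Z i).Infinite) :
    ∃ A : Set ℕ, (∀ t, (∀ m ∈ P t, m ∉ A) → ∃ b, R t b ∧ ∀ m ∈ Q b, m ∉ A) ∧
      ∀ i, (Z i ∩ A).Infinite ∧ (Z i \ A).Infinite := by
  obtain ⟨e, he⟩ := exists_surjective_nat (τ × ℕ × ℕ)
  have st : ∀ k n : ℕ, ∃ a : ℕ, n ≤ a ∧ a ∈ Z (e k).2.1 ∧ (e k).2.2 ≤ a ∧
      (∃ c ∈ Z (e k).2.1, (e k).2.2 ≤ c ∧ n ≤ c ∧ c < a) ∧
      ∃ b, R (e k).1 b ∧ ∀ m ∈ Q b, m < a ∧ (m ∉ P (e k).1 → n ≤ m) := by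
    intro k n
    obtain ⟨b, b1, b2⟩ := h (e k).1 n
    obtain ⟨c, c1, c2⟩ := (hZ (e k).2.1).exists_gt (n + (e k).2.2)
    obtain ⟨a, a1, a2⟩ := (hZ (e k).2.1).exists_gt (c + (Q b).sup id)
    refine ⟨a, by omega, a1, by omega, ⟨c, c1, by omega, by omega, by omega⟩, b, b1,
      fun m hm => ⟨?_, b2 m hm⟩⟩
    have : m ≤ (Q b).sup id := Finset.le_sup (f := id) hm
    omega
  choose nx n1 n2 n3 n4 n5 using st
  let s : ℕ → ℕ := fun k => Nat.rec 0 (fun k n => nx k n + 1) k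
  have hs : ∀ k, s (k + 1) = nx k (s k) + 1 := fun _ => rfl
  have hm : Monotone s := monotone_nat_of_le_succ fun k => by
    have := n1 k (s k)
    rw [hs]
    omega
  have gap : ∀ k m, s k ≤ m → m < nx k (s k) → m ∉ range fun k => nx k (s k) := by
    rintro k m h1 h2 ⟨j, hj⟩
    simp only at hj
    rcases lt_trichotomy j k with hl | hl | hl
    · have := hm (Nat.succ_le_of_lt hl)
      rw [Nat.succ_eq_add_one, hs] at this
      omega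
    · subst hl
      omega
    · have := hm (Nat.succ_le_of_lt hl)
      have := n1 j (s j)
      rw [Nat.succ_eq_add_one, hs] at *
      omega
  refine ⟨range fun k => nx k (s k), fun t ht => ?_, fun i => ⟨?_, ?_⟩⟩
  · obtain ⟨k, hk⟩ := he (t, 0, 0)
    obtain ⟨b, b1, b2⟩ := n5 k (s k)
    rw [hk] at b1 b2
    refine ⟨b, b1, fun m hm => ?_⟩
    by_cases hP : m ∈ P t
    · exact ht m hP
    · exact gap k m ((b2 m hm).2 hP) (b2 m hm).1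
  · refine infinite_of_forall_exists_gt fun n => ?_
    obtain ⟨k, hk⟩ := he (Classical.arbitrary τ, i, n + 1)
    have a1 := n2 k (s k)
    have a2 := n3 k (s k)
    rw [hk] at a1 a2
    exact ⟨_, ⟨a1, k, rfl⟩, a2⟩
  · refine infinite_of_forall_exists_gt fun n => ?_
    obtain ⟨k, hk⟩ := he (Classical.arbitrary τ, i, n + 1)
    obtain ⟨c, c1, c2, c3, c4⟩ := n4 k (s k)
    rw [hk] at c1 c2
    exact ⟨c, ⟨c1, gap k c c3 c4⟩, c2⟩

/-- The sequence used for bookkeeping. -/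
noncomputable def bseq {σ τ : Type} (s0 : σ) (nx : σ → τ → σ) (en : σ → ℕ → τ) : ℕ → σ
  | 0 => s0
  | k + 1 => nx (bseq s0 nx en k) (en (bseq s0 nx en k.unpair.1) k.unpair.2)
  decreasing_by
    · omega
    · have := Nat.unpair_left_le k
      omega

theorem book {σ τ : Type} [Nonempty τ] (s0 : σ) (R : σ → τ → σ → Prop) (Ta : σ → Set τ)
    (hc : ∀ s, (Ta s).Countable) (h : ∀ s t, ∃ s', R s t s') :
    ∃ (s : ℕ → σ) (t : ℕ → τ), s 0 = s0 ∧ (∀ k, R (s k) (t k) (s (k + 1))) ∧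
      ∀ k, ∀ u ∈ Ta (s k), ∃ j, k ≤ j ∧ t j = u := by
  choose nx hn using h
  have : ∀ s, ∃ en : ℕ → τ, Ta s ⊆ range en := fun s =>
    countable_iff_exists_subset_range.1 (hc s)
  choose en he using this
  refine ⟨bseq s0 nx en, fun k => en (bseq s0 nx en k.unpair.1) k.unpair.2, by rw [bseq],
    fun k => ?_, fun k u hu => ?_⟩
  · rw [bseq]
    exact hn _ _
  · obtain ⟨i, hi⟩ := he _ hu
    exact ⟨Nat.pair k i, Nat.left_le_pair k i, by simp [hi]⟩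

end Pool.Agent.Lib.MP_8fdcc7_lc.Q2
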