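import Mathlib

/-!
Countable approximations to an ultrafilter: raw data, the extension relation, unions of chains.
-/

namespace Pool.Agent.Lib.MP_8fdcc7_lc.Q2

open Set Classical

abbrev L : Type := Set ℕ
abbrev K : Type := ℕ × Finset ℕ
abbrev J : Type := L × Bool
abbrev Nd : Type := L × K

/-- The data carried by a node. -/
structure V where
  P : Finset ℕ
  Z : Set ℕ
  W : J → Prop

/-- Raw data of a condition. -/
structure Raw where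
  Λ : Set L
  A : L → Set ℕ
  le : L → L → Prop
  nd : Nd → V

def Raw.val (p : Raw) (j : J) : Set ℕ := bif j.2 then p.A j.1 else j.1

def In (Λ : Set L) (O : Finset J) : Prop := ∀ j ∈ O, j.1 ∈ Λ

structure Tri (Λ : Set L) (n : ℕ) (O : Finset J) (a b : V) : Prop where
  sub : a.P ⊆ b.P
  new : ∃ m ∈ b.P, m ∉ a.P
  big : ∀ m ∈ b.P, m ∉ a.P → m ∈ a.Z ∧ n ≤ m
  zs : b.Z ⊆ a.Z
  mon : ∀ y ∈ Λ, b.W (y, true) → a.W (y, true)
  agr : ∀ j ∈ O, (a.W j ↔ b.W j)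

theorem Tri.trans {Λ : Set L} {n : ℕ} {O : Finset J} {a b c : V} (h : Tri Λ n O a b)
    (h' : Tri Λ n O b c) : Tri Λ n O a c where
  sub := h.sub.trans h'.sub
  new := let ⟨m, h1, h2⟩ := h.new; ⟨m, h'.sub h1, h2⟩
  big := fun m h1 h2 => by
    by_cases hb : m ∈ b.P
    · exact h.big m hb h2
    · exact ⟨h.zs (h'.big m h1 hb).1, (h'.big m h1 hb).2⟩
  zs := h'.zs.trans h.zs
  mon := fun y hy hc => h.mon y hy (h'.mon y hy hc)
  agr := fun j hj => (h.agr j hj).trans (h'.agr j hj)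

theorem Tri.mono {Λ : Set L} {n n' : ℕ} {O O' : Finset J} {a b : V} (h : Tri Λ n O a b)
    (hn : n' ≤ n) (hO : O' ⊆ O) : Tri Λ n' O' a b where
  sub := h.sub
  new := h.new
  big := fun m h1 h2 => ⟨(h.big m h1 h2).1, hn.trans (h.big m h1 h2).2⟩
  zs := h.zs
  mon := h.mon
  agr := fun j hj => h.agr j (hO hj)

structure Good (p : Raw) : Prop where
  cnt : p.Λ.Countable
  tot : ∀ x ∈ p.Λ, ∀ y ∈ p.Λ, p.le x y ∨ p.le y x
  nxt : ∀ d : Nd, d.1 ∈ p.Λ → ∀ y ∈ p.Λ, p.le d.1 y → ∀ n O, In p.Λ O →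
    ∃ k, Tri p.Λ n O (p.nd d) (p.nd (y, k))
  zs : ∀ d : Nd, d.1 ∈ p.Λ → ∀ j : J, j.1 ∈ p.Λ → p.le j.1 d.1 →
    {m | m ∈ (p.nd d).Z ∧ ¬ (m ∈ p.val j ↔ (p.nd d).W j)}.Finite
  fin : ∀ d : Nd, d.1 ∈ p.Λ → ∀ m ∈ (p.nd d).P,
    {y | y ∈ p.Λ ∧ (p.nd d).W (y, true) ∧ m ∈ p.A y}.Finite

structure Ext (q p : Raw) : Prop where
  sub : p.Λ ⊆ q.Λ
  A : ∀ x ∈ p.Λ, q.A x = p.A x
  le : ∀ x ∈ p.Λ, ∀ y ∈ p.Λ, p.le x y → q.le x y
  P : ∀ d : Nd, d.1 ∈ p.Λ → (q.nd d).P = (p.nd d).P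
  Z : ∀ d : Nd, d.1 ∈ p.Λ → (q.nd d).Z = (p.nd d).Z
  W : ∀ d : Nd, d.1 ∈ p.Λ → ∀ j : J, j.1 ∈ p.Λ → ((q.nd d).W j ↔ (p.nd d).W j)
  new : ∀ d : Nd, d.1 ∈ p.Λ → ∀ y ∈ q.Λ, y ∉ p.Λ →
    ((q.nd d).W (y, true) ↔ ∀ m ∈ (p.nd d).P, m ∉ q.A y)

theorem Ext.refl (p : Raw) : Ext p p :=
  ⟨subset_rfl, fun _ _ => rfl, fun _ _ _ _ h => h, fun _ _ => rfl, fun _ _ => rfl,
    fun _ _ _ _ => Iff.rfl, fun _ _ _ h h' => (h' h).elim⟩

theorem Ext.trans {r q p : Raw} (h : Ext r q) (h' : Ext q p) : Ext r p where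
  sub := h'.sub.trans h.sub
  A := fun x hx => (h.A x (h'.sub hx)).trans (h'.A x hx)
  le := fun x hx y hy hl => h.le x (h'.sub hx) y (h'.sub hy) (h'.le x hx y hy hl)
  P := fun d hd => (h.P d (h'.sub hd)).trans (h'.P d hd)
  Z := fun d hd => (h.Z d (h'.sub hd)).trans (h'.Z d hd)
  W := fun d hd j hj => (h.W d (h'.sub hd) j (h'.sub hj)).trans (h'.W d hd j hj)
  new := fun d hd y hy hy' => by
    by_cases hq : y ∈ q.Λ
    · rw [h.W d (h'.sub hd) (y, true) hq, h'.new d hd y hq hy', h.A y hq]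
    · rw [h.new d (h'.sub hd) y hy hq, h'.P d hd]

theorem Ext.val {q p : Raw} (h : Ext q p) {j : J} (hj : j.1 ∈ p.Λ) : q.val j = p.val j := by
  unfold Raw.val
  rw [h.A _ hj]

theorem Ext.tri_up {q p : Raw} (h : Ext q p) {n : ℕ} {O : Finset J} (hO : In p.Λ O) {d e : Nd}
    (hd : d.1 ∈ p.Λ) (he : e.1 ∈ p.Λ) (t : Tri p.Λ n O (p.nd d) (p.nd e)) :
    Tri q.Λ n O (q.nd d) (q.nd e) where
  sub := by rw [h.P d hd, h.P e he]; exact t.sub
  new := by rw [h.P d hd, h.P e he]; exact t.new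
  big := by rw [h.P d hd, h.P e he, h.Z d hd]; exact t.big
  zs := by rw [h.Z d hd, h.Z e he]; exact t.zs
  mon := fun y hy => by
    by_cases hp : y ∈ p.Λ
    · rw [h.W d hd (y, true) hp, h.W e he (y, true) hp]
      exact t.mon y hp
    · rw [h.new d hd y hy hp, h.new e he y hy hp]
      exact fun h' m hm => h' m (t.sub hm)
  agr := fun j hj => by
    rw [h.W d hd j (hO j hj), h.W e he j (hO j hj)]
    exact t.agr j hj

theorem Ext.tri_down {q p : Raw} (h : Ext q p) {n : ℕ} {O : Finset J} (hO : In p.Λ O) {d e : Nd}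
    (hd : d.1 ∈ p.Λ) (he : e.1 ∈ p.Λ) (t : Tri q.Λ n O (q.nd d) (q.nd e)) :
    Tri p.Λ n O (p.nd d) (p.nd e) where
  sub := by rw [← h.P d hd, ← h.P e he]; exact t.sub
  new := by rw [← h.P d hd, ← h.P e he]; exact t.new
  big := by rw [← h.P d hd, ← h.P e he, ← h.Z d hd]; exact t.big
  zs := by rw [← h.Z d hd, ← h.Z e he]; exact t.zs
  mon := fun y hp => by
    rw [← h.W d hd (y, true) hp, ← h.W e he (y, true) hp]
    exact t.mon y (h.sub hp)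
  agr := fun j hj => by
    rw [← h.W d hd j (hO j hj), ← h.W e he j (hO j hj)]
    exact t.agr j hj

theorem Ext.fin_sub {q p : Raw} (h : Ext q p) {d : Nd} (hd : d.1 ∈ p.Λ) {m : ℕ}
    (hm : m ∈ (p.nd d).P) : {y | y ∈ q.Λ ∧ (q.nd d).W (y, true) ∧ m ∈ q.A y} ⊆
      {y | y ∈ p.Λ ∧ (p.nd d).W (y, true) ∧ m ∈ p.A y} := by
  rintro y ⟨h1, h2, h3⟩
  by_cases hp : y ∈ p.Λ
  · exact ⟨hp, (h.W d hd (y, true) hp).1 h2, h.A y hp ▸ h3⟩
  · exact ((h.new d hd y h1 hp).1 h2 m hm h3).elim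

theorem ext_of_succ {r : ℕ → Raw} (h : ∀ k, Ext (r (k + 1)) (r k)) {j k : ℕ} (hjk : j ≤ k) :
    Ext (r k) (r j) := by
  induction hjk with
  | refl => exact Ext.refl _
  | step _ ih => exact (h _).trans ih

theorem in_bound {r : ℕ → Raw} (h : ∀ k, Ext (r (k + 1)) (r k)) (O : Finset J)
    (hO : ∀ j ∈ O, ∃ k, j.1 ∈ (r k).Λ) (k : ℕ) : ∃ k', k ≤ k' ∧ In (r k').Λ O := by
  choose! f hf using hO
  refine ⟨max k (O.sup f), le_max_left _ _, fun j hj => ?_⟩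
  exact (ext_of_succ h ((Finset.le_sup hj).trans (le_max_right _ _))).sub (hf j hj)

theorem exists_lb (r : ℕ → Raw) (hg : ∀ k, Good (r k)) (h : ∀ k, Ext (r (k + 1)) (r k)) :
    ∃ q, Good q ∧ (∀ k, Ext q (r k)) ∧ (∀ x ∈ q.Λ, ∃ k, x ∈ (r k).Λ) ∧
      ∀ x y, q.le x y → ∃ k, x ∈ (r k).Λ ∧ y ∈ (r k).Λ ∧ (r k).le x y := by
  let ix : L → ℕ := fun x => if hx : ∃ k, x ∈ (r k).Λ then Nat.find hx else 0
  have i1 : ∀ x k, x ∈ (r k).Λ → ix x ≤ k ∧ x ∈ (r (ix x)).Λ := by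
    intro x k hk
    have hx : ∃ k, x ∈ (r k).Λ := ⟨k, hk⟩
    simp only [ix, dif_pos hx]
    exact ⟨Nat.find_min' hx hk, Nat.find_spec hx⟩
  let q : Raw := ⟨{x | ∃ k, x ∈ (r k).Λ}, fun x => (r (ix x)).A x,
    fun x y => ∃ k, x ∈ (r k).Λ ∧ y ∈ (r k).Λ ∧ (r k).le x y,
    fun d => ⟨((r (ix d.1)).nd d).P, ((r (ix d.1)).nd d).Z,
      fun j => ((r (max (ix d.1) (ix j.1))).nd d).W j⟩⟩
  have hW : ∀ k (d : Nd), d.1 ∈ (r k).Λ → ∀ j : J, j.1 ∈ (r k).Λ →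
      ((q.nd d).W j ↔ ((r k).nd d).W j) := by
    intro k d hd j hj
    have a := i1 _ _ hd
    have b := i1 _ _ hj
    exact ((ext_of_succ h (max_le a.1 b.1)).W d
      ((ext_of_succ h (le_max_left _ _)).sub a.2) j
      ((ext_of_succ h (le_max_right _ _)).sub b.2)).symm
  have hA : ∀ k, ∀ x ∈ (r k).Λ, q.A x = (r k).A x := fun k x hx =>
    ((ext_of_succ h (i1 x k hx).1).A x (i1 x k hx).2).symm
  have he : ∀ k, Ext q (r k) := by
    intro k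
    refine ⟨fun x hx => ⟨k, hx⟩, hA k, fun x hx y hy hl => ⟨k, hx, hy, hl⟩,
      fun d hd => ((ext_of_succ h (i1 _ k hd).1).P d (i1 _ k hd).2).symm,
      fun d hd => ((ext_of_succ h (i1 _ k hd).1).Z d (i1 _ k hd).2).symm, hW k, ?_⟩
    rintro d hd y ⟨j, hj⟩ hy
    have e1 := ext_of_succ h (le_max_left k j)
    have e2 := (ext_of_succ h (le_max_right k j)).sub hj
    rw [hW _ d (e1.sub hd) (y, true) e2, e1.new d hd y e2 hy, hA _ y e2]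
  refine ⟨q, ⟨?_, ?_, ?_, ?_, ?_⟩, he, fun x hx => hx, fun x y hl => hl⟩
  · have : q.Λ = ⋃ k, (r k).Λ := by
      ext x
      simp [q]
    rw [this]
    exact countable_iUnion fun k => (hg k).cnt
  · rintro x ⟨j, hj⟩ y ⟨k, hk⟩
    have a := (ext_of_succ h (le_max_left j k)).sub hj
    have b := (ext_of_succ h (le_max_right j k)).sub hk
    exact ((hg _).tot x a y b).imp (fun h => ⟨_, a, b, h⟩) fun h => ⟨_, b, a, h⟩
  · rintro d - y - ⟨k, h1, h2, h3⟩ n O hO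
    obtain ⟨k', k1, k2⟩ := in_bound h O hO k
    have e := ext_of_succ h k1
    obtain ⟨c, hc⟩ := (hg k').nxt d (e.sub h1) y (e.sub h2) (e.le _ h1 _ h2 h3) n O k2
    exact ⟨c, (he k').tri_up k2 (e.sub h1) (e.sub h2) hc⟩
  · rintro d - j - ⟨k, h1, h2, h3⟩
    rw [(he k).Z d h2, (he k).val h1]
    simp only [(he k).W d h2 j h1]
    exact (hg k).zs d h2 j h1 h3
  · rintro d ⟨k, hk⟩ m hm
    rw [(he k).P d hk] at hm
    exact ((hg k).fin d hk m hm).subset ((he k).fin_sub hk hm)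

theorem in_countable {Λ : Set L} (h : Λ.Countable) : {O : Finset J | In Λ O}.Countable := by
  have h1 : (Λ ×ˢ (univ : Set Bool)).Countable := h.prod countable_univ
  refine ((countable_ofPred_finite_subset h1).preimage_of_injOn
    (f := fun O : Finset J => (O : Set J)) Finset.coe_injective.injOn).mono ?_
  intro O hO
  exact ⟨O.finite_toSet, fun j hj => ⟨hO j hj, trivial⟩⟩

end Pool.Agent.Lib.MP_8fdcc7_lc.Q2
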