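import Mathlib
import Pool.Agent.Lib.MP_8fdcc7_lc.Q2.Base

/-!
Limit nodes obtained from chains.
-/

namespace Pool.Agent.Lib.MP_8fdcc7_lc.Q2

open Set Classical

structure Virt (p : Raw) (v : V) : Prop where
  inf : v.Z.Infinite
  zs : ∀ j : J, j.1 ∈ p.Λ → {m | m ∈ v.Z ∧ ¬ (m ∈ p.val j ↔ v.W j)}.Finite
  fin : ∀ m, (m ∈ v.P ∨ m ∈ v.Z) → {y | y ∈ p.Λ ∧ v.W (y, true) ∧ m ∈ p.A y}.Finite

def Closed (p : Raw) (S : Set Nd) : Prop :=
  ∀ d ∈ S, d.1 ∈ p.Λ ∧ ∀ y ∈ p.Λ, p.le d.1 y → ∀ n O, In p.Λ O →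
    ∃ k, (y, k) ∈ S ∧ Tri p.Λ n O (p.nd d) (p.nd (y, k))

theorem Good.closed {p : Raw} (hp : Good p) : Closed p {d | d.1 ∈ p.Λ} :=
  fun d hd => ⟨hd, fun y hy hl n O hO =>
    let ⟨k, hk⟩ := hp.nxt d hd y hy hl n O hO; ⟨k, hy, hk⟩⟩

theorem Closed.up {p : Raw} (hp : Good p) {S : Set Nd} (hS : Closed p S) {d : Nd} (hd : d ∈ S)
    {y : L} (hy : y ∈ p.Λ) (n : ℕ) {O : Finset J} (hO : In p.Λ O) :
    ∃ e ∈ S, p.le y e.1 ∧ Tri p.Λ n O (p.nd d) (p.nd e) := by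
  have h1 := (hS d hd).1
  rcases hp.tot d.1 h1 y hy with h | h
  · obtain ⟨k, k1, k2⟩ := (hS d hd).2 y hy h n O hO
    exact ⟨(y, k), k1, (hp.tot y hy y hy).elim id id, k2⟩
  · obtain ⟨k, k1, k2⟩ := (hS d hd).2 d.1 h1 ((hp.tot _ h1 _ h1).elim id id) n O hO
    exact ⟨(d.1, k), k1, h, k2⟩

theorem chain {p : Raw} (hp : Good p) {S : Set Nd} (hS : Closed p S) {d : Nd} (hd : d ∈ S)
    (n : ℕ) {O : Finset J} (hO : In p.Λ O) :
    ∃ v, Virt p v ∧ Tri p.Λ n O (p.nd d) v ∧ ∀ j, (∀ e ∈ S, (p.nd e).W j) → v.W j := by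
  obtain ⟨en, hen⟩ := hp.cnt.exists_eq_range ⟨d.1, (hS d hd).1⟩
  have hen' : ∀ i, en i ∈ p.Λ := fun i => hen ▸ mem_range_self i
  let Q : ℕ → Finset J := fun k =>
    O ∪ ((Finset.range (k + 1)) ×ˢ (Finset.univ : Finset Bool)).image fun x => (en x.1, x.2)
  have q1 : ∀ k, In p.Λ (Q k) := by
    intro k j hj
    rcases Finset.mem_union.1 hj with h | h
    · exact hO j h
    · obtain ⟨x, _, rfl⟩ := Finset.mem_image.1 h
      exact hen' _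
  have q2 : ∀ j k, j ≤ k → Q j ⊆ Q k := fun j k h =>
    Finset.union_subset_union_right (Finset.image_subset_image
      (Finset.product_subset_product_left (Finset.range_mono (by omega))))
  have q3 : ∀ i b, (en i, b) ∈ Q i := fun i b =>
    Finset.mem_union_right _ (Finset.mem_image.2 ⟨(i, b), by simp, rfl⟩)
  have st : ∀ (k : ℕ) (e : S), ∃ e' : S, p.le (en k) e'.1.1 ∧
      Tri p.Λ n (Q k) (p.nd e) (p.nd e') := fun k e =>
    let ⟨e', h1, h2⟩ := hS.up hp e.2 (hen' k) n (q1 k); ⟨⟨e', h1⟩, h2⟩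
  choose nx n1 n2 using st
  let c : ℕ → S := fun k => Nat.rec ⟨d, hd⟩ nx k
  have c1 : ∀ k, p.le (en k) (c (k + 1)).1.1 := fun k => n1 k (c k)
  have c2 : ∀ k, Tri p.Λ n (Q k) (p.nd (c k).1) (p.nd (c (k + 1)).1) := fun k => n2 k (c k)
  have c3 : ∀ j k, j < k → Tri p.Λ n (Q j) (p.nd (c j).1) (p.nd (c k).1) := by
    intro j k h
    induction h with
    | refl => exact c2 j
    | step h ih => exact ih.trans ((c2 _).mono le_rfl (q2 _ _ (Nat.le_of_succ_le h)))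
  have cP : ∀ j k, j ≤ k → (p.nd (c j).1).P ⊆ (p.nd (c k).1).P := fun j k h =>
    h.eq_or_lt.elim (fun h => h ▸ subset_rfl) fun h => (c3 j k h).sub
  have cZ : ∀ j k, j ≤ k → (p.nd (c k).1).Z ⊆ (p.nd (c j).1).Z := fun j k h =>
    h.eq_or_lt.elim (fun h => h ▸ subset_rfl) fun h => (c3 j k h).zs
  choose m m1 m2 using fun k => (c2 k).new
  have mi : Function.Injective m := by
    have : ∀ j k, j < k → m j ≠ m k := fun j k h e => m2 k (e ▸ cP (j + 1) k h (m1 j))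
    intro j k e
    rcases lt_trichotomy j k with h | h | h
    · exact (this j k h e).elim
    · exact h
    · exact (this k j h e.symm).elim
  have mZ : ∀ j k, j ≤ k → m k ∈ (p.nd (c j).1).Z := fun j k h =>
    cZ j k h ((c2 k).big _ (m1 k) (m2 k)).1
  let v : V := ⟨(p.nd (c 1).1).P, range fun k => m (k + 1),
    fun j => ∃ k0, ∀ k, k0 ≤ k → (p.nd (c k).1).W j⟩
  have vW : ∀ k, ∀ j ∈ Q k, (v.W j ↔ (p.nd (c k).1).W j) := by
    intro k j hj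
    constructor
    · rintro ⟨k0, h⟩
      exact ((c3 k (max k0 (k + 1)) (by omega)).agr j hj).2 (h _ (le_max_left _ _))
    · exact fun h => ⟨k + 1, fun k' hk' => ((c3 k k' hk').agr j hj).1 h⟩
  have vM : ∀ k, ∀ y ∈ p.Λ, v.W (y, true) → (p.nd (c k).1).W (y, true) := by
    rintro k y hy ⟨k0, h⟩
    exact (c3 k (max k0 (k + 1)) (by omega)).mon y hy (h _ (le_max_left _ _))
  refine ⟨v, ⟨infinite_range_of_injective fun a b h => by simpa using mi h, ?_, ?_⟩,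
    ⟨(c2 0).sub, (c2 0).new, (c2 0).big, ?_, vM 0, fun j hj => ?_⟩,
    fun j hj => ⟨0, fun k _ => hj _ (c k).2⟩⟩
  · rintro ⟨y, b⟩ hy
    obtain ⟨i, rfl⟩ : y ∈ range en := hen ▸ hy
    have h1 := hp.zs (c (i + 1)) (hS _ (c (i + 1)).2).1 (en i, b) hy (c1 i)
    refine (h1.union ((finite_lt_nat (i + 1)).image m)).subset ?_
    rintro _ ⟨⟨k, rfl⟩, h2⟩
    by_cases hk : k + 1 < i + 1
    · exact Or.inr ⟨k + 1, hk, rfl⟩
    · rw [vW (i + 1) _ (q2 i _ (by omega) (q3 i b))] at h2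
      exact Or.inl ⟨mZ (i + 1) (k + 1) (by omega), h2⟩
  · intro a ha
    obtain ⟨k, hk⟩ : ∃ k, a ∈ (p.nd (c k).1).P := by
      rcases ha with ha | ⟨k, rfl⟩
      · exact ⟨1, ha⟩
      · exact ⟨k + 1 + 1, m1 (k + 1)⟩
    exact (hp.fin (c k).1 (hS _ (c k).2).1 a hk).subset
      fun y hy => ⟨hy.1, vM k y hy.1 hy.2.1, hy.2.2⟩
  · rintro _ ⟨k, rfl⟩
    exact mZ 0 _ (by omega)
  · exact (vW 0 j (Finset.mem_union_left _ hj)).symm

theorem virt {p : Raw} (hp : Good p) {S : Set Nd} (hS : Closed p S) (hne : p.Λ.Nonempty) :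
    ∃ v : ℕ → V, (∀ i, Virt p (v i)) ∧ ∀ d : Nd, d.1 ∈ p.Λ → ∀ n O, In p.Λ O →
      ∃ i, Tri p.Λ n O (p.nd d) (v i) ∧
        (d ∈ S → ∀ j, (∀ e ∈ S, (p.nd e).W j) → (v i).W j) := by
  have := hp.cnt.to_subtype
  have := (in_countable hp.cnt).to_subtype
  have : Nonempty p.Λ := hne.to_subtype
  have : Nonempty {O : Finset J | In p.Λ O} := ⟨⟨∅, fun j hj => by simp at hj⟩⟩
  obtain ⟨e, he⟩ := exists_surjective_nat ((p.Λ × K) × ℕ × {O : Finset J | In p.Λ O})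
  have : ∀ t : (p.Λ × K) × ℕ × {O : Finset J | In p.Λ O}, ∃ v, Virt p v ∧
      Tri p.Λ t.2.1 t.2.2 (p.nd (t.1.1, t.1.2)) v ∧
      ((t.1.1.1, t.1.2) ∈ S → ∀ j, (∀ e ∈ S, (p.nd e).W j) → v.W j) := by
    intro t
    by_cases h : (t.1.1.1, t.1.2) ∈ S
    · obtain ⟨v, v1, v2, v3⟩ := chain hp hS h t.2.1 t.2.2.2
      exact ⟨v, v1, v2, fun _ => v3⟩
    · obtain ⟨v, v1, v2, -⟩ := chain hp hp.closed (d := (t.1.1.1, t.1.2)) t.1.1.2 t.2.1 t.2.2.2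
      exact ⟨v, v1, v2, fun h' => (h h').elim⟩
  choose v v1 v2 using this
  refine ⟨fun i => v (e i), fun i => v1 _, fun d hd n O hO => ?_⟩
  obtain ⟨i, hi⟩ := he ((⟨d.1, hd⟩, d.2), n, ⟨O, hO⟩)
  refine ⟨i, ?_⟩
  simp only [hi]
  exact v2 ((⟨d.1, hd⟩, d.2), n, ⟨O, hO⟩)

/-- The signs at a node are consistent. -/
theorem consis {p : Raw} (hp : Good p) {d : Nd} (hd : d.1 ∈ p.Λ) {O : Finset J}
    (hO : In p.Λ O) : {m | ∀ j ∈ O, (m ∈ p.val j ↔ (p.nd d).W j)}.Infinite := by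
  obtain ⟨v, v1, v2, -⟩ := chain hp hp.closed (d := d) hd 0 hO
  have : (⋃ j ∈ O, {m | m ∈ v.Z ∧ ¬ (m ∈ p.val j ↔ v.W j)}).Finite :=
    O.finite_toSet.biUnion fun j hj => v1.zs j (hO j hj)
  refine (v1.inf.sdiff this).mono fun m hm j hj => ?_
  rw [v2.agr j hj]
  by_contra hc
  exact hm.2 (mem_biUnion hj ⟨hm.1, hc⟩)

/-- A set signed positively at a node lies in only finitely many of the sets `A y`. -/
theorem fin_top {p : Raw} (hp : Good p) {d : Nd} (hd : d.1 ∈ p.Λ) {B : L} (hB : B ∈ p.Λ)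
    (hW : (p.nd d).W (B, false)) :
    ∃ F : Set L, F.Finite ∧ ∀ q, Good q → Ext q p → ∀ y ∈ q.Λ, B ⊆ q.A y → y ∈ F := by
  have hO : In p.Λ {(B, false)} := fun j hj => by rw [Finset.mem_singleton.1 hj]; exact hB
  obtain ⟨e, e1, e2, e3⟩ := hp.closed.up hp (d := d) hd hB 0 hO
  obtain ⟨n, hn⟩ := (hp.zs e e1 (B, false) hB e2).bddAbove
  obtain ⟨c, c1, -, c3⟩ := hp.closed.up hp (d := e) e1 hB (n + 1) hO
  obtain ⟨m, m1, m2⟩ := c3.new
  have w1 := (e3.agr _ (Finset.mem_singleton_self _)).1 hW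
  have w2 := (c3.agr _ (Finset.mem_singleton_self _)).1 w1
  have mB : m ∈ B := by
    by_contra hc
    have := hn ⟨(c3.big m m1 m2).1, fun h => hc (h.2 w1)⟩
    have := (c3.big m m1 m2).2
    omega
  refine ⟨_, hp.fin c c1 m m1, fun q hq he y hy hs => he.fin_sub c1 m1 ⟨hy, ?_, hs mB⟩⟩
  have hO' : In q.Λ {(B, false), (y, true)} := by
    intro j hj
    rcases Finset.mem_insert.1 hj with rfl | hj
    · exact he.sub hB
    · rw [Finset.mem_singleton.1 hj]; exact hy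
  obtain ⟨a, ha⟩ := (consis hq (he.sub c1) hO').nonempty
  exact (ha (y, true) (by simp)).1
    (hs ((ha (B, false) (by simp)).2 ((he.W c c1 (B, false) hB).2 w2)))

end Pool.Agent.Lib.MP_8fdcc7_lc.Q2
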