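import Mathlib
import Pool.Agent.Lib.MP_8fdcc7_lc.Q2.Chain

/-!
The forcing poset.
-/

namespace Pool.Agent.Lib.MP_8fdcc7_lc.Q2

open Set Classical

def base : Raw := ⟨{univ}, fun _ => univ, fun _ _ => True, fun d => ⟨d.2.2, univ, fun _ => True⟩⟩

theorem base_good : Good base := by
  refine ⟨countable_singleton _, fun _ _ _ _ => Or.inl trivial, ?_, ?_, ?_⟩
  · intro d _ y _ _ n O _
    obtain ⟨m, m1, m2⟩ := (d.2.2.finite_toSet.infinite_compl).exists_gt n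
    refine ⟨(0, insert m d.2.2), Finset.subset_insert _ _, ⟨m, Finset.mem_insert_self _ _, m1⟩,
      fun a h1 h2 => ⟨trivial, ?_⟩, subset_rfl, fun _ _ h => h, fun _ _ => Iff.rfl⟩
    rcases Finset.mem_insert.1 h1 with rfl | h
    · exact m2.le
    · exact (h2 h).elim
  · rintro d _ ⟨y, b⟩ hj _
    obtain rfl : y = univ := hj
    refine finite_empty.subset fun m hm => hm.2 ?_
    cases b <;> simp [base, Raw.val]
  · exact fun d _ m _ => (finite_singleton univ).subset fun y hy => hy.1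

/-- Conditions. -/
def Cnd : Type := {p : Raw // Good p ∧ Ext p base}

instance : Preorder Cnd where
  le q p := Ext q.1 p.1
  le_refl p := Ext.refl p.1
  le_trans _ _ _ h h' := Ext.trans h h'

instance : OrderTop Cnd where
  top := ⟨base, base_good, Ext.refl _⟩
  le_top p := p.2.2

def root : Nd := (univ, (0, ∅))

theorem root_mem (p : Cnd) : root.1 ∈ p.1.Λ := p.2.2.sub rfl

/-- `p` puts `X` into the generic ultrafilter. -/
def InU (p : Cnd) (X : Set ℕ) : Prop := X ∈ p.1.Λ ∧ (p.1.nd root).W (X, false)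

theorem InU.mono {p q : Cnd} {X : Set ℕ} (h : InU p X) (hq : q ≤ p) : InU q X :=
  ⟨Ext.sub hq h.1, (Ext.W hq root (root_mem p) (X, false) h.1).2 h.2⟩

theorem root_A (p : Cnd) {y : L} (hy : y ∈ p.1.Λ) : (p.1.nd root).W (y, true) := by
  by_cases h : y ∈ base.Λ
  · exact (p.2.2.W root rfl (y, true) h).2 trivial
  · exact (p.2.2.new root rfl y hy h).2 fun m hm => by simp [base, root] at hm

/-- Consistency at the root: finitely many sets put in `U`, finitely many sets `A y` and the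
complements of finitely many decided sets not put in `U` have infinite intersection. -/
theorem root_consis (p : Cnd) (s t u : Finset L) (hs : ∀ X ∈ s, InU p X)
    (ht : ∀ y ∈ t, y ∈ p.1.Λ) (hu : ∀ X ∈ u, X ∈ p.1.Λ ∧ ¬ InU p X) :
    {m | (∀ X ∈ s, m ∈ X) ∧ (∀ y ∈ t, m ∈ p.1.A y) ∧ ∀ X ∈ u, m ∉ X}.Infinite := by
  have hO : In p.1.Λ ((s ∪ u).image (·, false) ∪ t.image (·, true)) := by
    intro j hj
    rcases Finset.mem_union.1 hj with h | h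
    · obtain ⟨X, hX, rfl⟩ := Finset.mem_image.1 h
      exact (Finset.mem_union.1 hX).elim (fun h => (hs X h).1) fun h => (hu X h).1
    · obtain ⟨X, hX, rfl⟩ := Finset.mem_image.1 h
      exact ht X hX
  refine (consis p.2.1 (root_mem p) hO).mono fun m hm => ⟨fun X hX => ?_, fun y hy => ?_,
    fun X hX h => ?_⟩
  · exact (hm (X, false) (by simp [hX])).2 (hs X hX).2
  · exact (hm (y, true) (by simp [hy])).2 (root_A p (ht y hy))
  · exact (hu X hX).2 ⟨(hu X hX).1, (hm (X, false) (by simp [hX])).1 h⟩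

theorem InU.fin {p : Cnd} {B : Set ℕ} (h : InU p B) :
    ∃ F : Set L, F.Finite ∧ ∀ q ≤ p, ∀ y ∈ q.1.Λ, B ⊆ q.1.A y → y ∈ F :=
  let ⟨F, h1, h2⟩ := fin_top p.2.1 (root_mem p) h.1 h.2
  ⟨F, h1, fun q hq => h2 q.1 q.2.1 hq⟩

theorem lower (r : ℕ → Cnd) (h : ∀ k, r (k + 1) ≤ r k) : ∃ q, ∀ k, q ≤ r k :=
  let ⟨q, q1, q2, _⟩ := exists_lb (fun k => (r k).1) (fun k => (r k).2.1) h
  ⟨⟨q, q1, (q2 0).trans (r 0).2.2⟩, q2⟩

theorem dense_all {ι : Type} [Countable ι] (D : ι → Set Cnd)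
    (hm : ∀ i, ∀ p ∈ D i, ∀ q ≤ p, q ∈ D i) (p : Cnd)
    (hd : ∀ i, ∀ q ≤ p, ∃ r ≤ q, r ∈ D i) : ∃ q ≤ p, ∀ i, q ∈ D i := by
  rcases isEmpty_or_nonempty ι with hι | hι
  · exact ⟨p, le_rfl, fun i => hι.elim i⟩
  obtain ⟨e, he⟩ := exists_surjective_nat ι
  have st : ∀ (k : ℕ) (q : {q // q ≤ p}), ∃ r : {q // q ≤ p}, r.1 ≤ q.1 ∧ r.1 ∈ D (e k) :=
    fun k q => let ⟨r, r1, r2⟩ := hd (e k) q.1 q.2; ⟨⟨r, r1.trans q.2⟩, r1, r2⟩
  choose nx n1 n2 using st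
  let s : ℕ → {q // q ≤ p} := fun k => Nat.rec ⟨p, le_rfl⟩ nx k
  obtain ⟨q, hq⟩ := lower (fun k => (s k).1) fun k => n1 k (s k)
  refine ⟨q, hq 0, fun i => ?_⟩
  obtain ⟨k, rfl⟩ := he i
  exact hm _ _ (n2 k (s k)) q (hq (k + 1))

theorem decide_all {ι : Type} [Countable ι] (D : ι → Set Cnd)
    (hm : ∀ i, ∀ p ∈ D i, ∀ q ≤ p, q ∈ D i) (p : Cnd) :
    ∃ q ≤ p, ∀ i, q ∈ D i ∨ ∀ r ≤ q, r ∉ D i := by
  refine dense_all (fun i => {q | q ∈ D i ∨ ∀ r ≤ q, r ∉ D i}) ?_ p fun i q _ => ?_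
  · exact fun i p hp q hq => hp.imp (fun h => hm i p h q hq) fun h r hr => h r (hr.trans hq)
  · by_cases h : ∃ r ≤ q, r ∈ D i
    · obtain ⟨r, r1, r2⟩ := h
      exact ⟨r, r1, Or.inl r2⟩
    · exact ⟨q, le_rfl, Or.inr fun r hr hD => h ⟨r, hr, hD⟩⟩

/-- Every set is decided densely often. -/
def AddStmt : Prop := ∀ (p : Cnd) (x : Set ℕ), ∃ q ≤ p, x ∈ q.1.Λ

/-- Fusion. -/
def FuseStmt : Prop := ∀ (Dec : Cnd → L → L → Prop),
  (∀ p q x X, q ≤ p → Dec p x X → Dec q x X) → ∀ p : Cnd,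
  (∀ r ≤ p, ∀ x, ∃ r' ≤ r, ∃ X, Dec r' x X ∧ InU r' X) →
  ∃ q ≤ p, ∃ (x X : ℕ → L) (B : L), Function.Injective x ∧ InU q B ∧
    ∀ k, Dec q (x k) (X k) ∧ (B \ X k).Finite

end Pool.Agent.Lib.MP_8fdcc7_lc.Q2
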