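import Mathlib
import Pool.Agent.Lib.MP_8fdcc7_lc.Defs

/-!
Tukey-top ultrafilters in the sense of a transitive model `M`.
-/

namespace Pool.Agent.Lib.MP_8fdcc7_lc.Q2

open Pool.Agent.Lib.MP_053343_lc Pool.Agent.Lib.MP_8fdcc7_lc

/-- A finite set of subsets of `ω` as a set. -/
noncomputable def encF (a : Finset (Set ℕ)) : ZFSet.{0} := ZFSet.range fun x : a => enc x

/-- `a` is a finite subset of the power set of `ω` in `M`. -/
def FinIn (M : ZFSet.{0}) (a : Finset (Set ℕ)) : Prop := ∀ x ∈ a, enc x ∈ M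

/-- `([𝔠]^{<ω}, ⊆) ≤_T (U, s)` in `M`, with the power set of `ω` in `M` as the index set of
size `𝔠`: some map in `M` from the finite sets of reals of `M` to `U` sends every
`⊆`-unbounded family lying in `M` to an `s`-unbounded family. -/
def TukeyTop (M : ZFSet.{0}) (U : Set (Set ℕ)) (s : Set ℕ → Set ℕ → Prop) : Prop :=
  ∃ F : Finset (Set ℕ) → Set ℕ,
    (∃ f ∈ M, ∀ z, z ∈ f ↔ ∃ a, FinIn M a ∧ z = ZFSet.pair (encF a) (enc (F a))) ∧
      (∀ a, FinIn M a → F a ∈ U) ∧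
      ∀ S : Set (Finset (Set ℕ)), (∀ a ∈ S, FinIn M a) →
        (∃ t ∈ M, ∀ z, z ∈ t ↔ ∃ a ∈ S, z = encF a) →
        (¬ ∃ b, FinIn M b ∧ ∀ a ∈ S, a ⊆ b) → ¬ ∃ B ∈ U, ∀ a ∈ S, s (F a) B

end Pool.Agent.Lib.MP_8fdcc7_lc.Q2
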