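import Mathlib
import Pool.Agent.Lib.MP_8fdcc7_lc.Q2.Abs
import Pool.Agent.Lib.MP_8fdcc7_lc.Q2.Cnd

/-!
Adding a new level.
-/

namespace Pool.Agent.Lib.MP_8fdcc7_lc.Q2

open Set Classical

def upd (x : L) (A : Set ℕ) (a : V) (e : Prop) : V :=
  ⟨a.P, a.Z, fun j => if j.1 = x then (bif j.2 then ∀ m ∈ a.P, m ∉ A else e) else a.W j⟩

theorem upd_ne {x : L} {A : Set ℕ} {a : V} {e : Prop} {j : J} (h : j.1 ≠ x) :
    (upd x A a e).W j ↔ a.W j := by simp only [upd, if_neg h]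

theorem upd_t {x : L} {A : Set ℕ} {a : V} {e : Prop} :
    (upd x A a e).W (x, true) ↔ ∀ m ∈ a.P, m ∉ A := by simp [upd]

theorem upd_f {x : L} {A : Set ℕ} {a : V} {e : Prop} : (upd x A a e).W (x, false) ↔ e := by
  simp [upd]

theorem Tri.lift {Λ : Set L} {x : L} {A : Set ℕ} {n : ℕ} {O : Finset J} {a b : V} {e f : Prop}
    (t : Tri Λ n (O.filter fun j => j.1 ≠ x) a b) (h1 : e ↔ f)
    (h2 : (∀ m ∈ a.P, m ∉ A) ↔ ∀ m ∈ b.P, m ∉ A) :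
    Tri (insert x Λ) n O (upd x A a e) (upd x A b f) := by
  refine ⟨t.sub, t.new, t.big, t.zs, fun y hy => ?_, ?_⟩
  · by_cases h : y = x
    · subst h
      rw [upd_t, upd_t]
      exact h2.2
    · rw [upd_ne h, upd_ne h]
      exact t.mon y (hy.resolve_left h)
  · rintro ⟨y, c⟩ hj
    by_cases h : y = x
    · subst h
      cases c
      · rw [upd_f, upd_f]; exact h1
      · rw [upd_t, upd_t]; exact h2
    · rw [upd_ne h, upd_ne h]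
      exact t.agr _ (Finset.mem_filter.2 ⟨hj, h⟩)

theorem signs {p : Raw} (hp : Good p) {x : L} (hx : x ∉ p.Λ) (hne : p.Λ.Nonempty) (v : ℕ → V)
    (hv : ∀ i, (v i).Z.Infinite)
    (hd : ∀ d : Nd, d.1 ∈ p.Λ → ∀ n O, In p.Λ O → ∃ i, Tri p.Λ n O (p.nd d) (v i)) :
    ∃ (E : Set Nd) (A : Set ℕ),
      (∀ d : Nd, d.1 ∈ p.Λ → ∀ y ∈ p.Λ, p.le d.1 y → ∀ n O, In p.Λ O →
        ∃ k, Tri p.Λ n O (p.nd d) (p.nd (y, k)) ∧ (d ∈ E ↔ (y, k) ∈ E) ∧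
          ((∀ m ∈ (p.nd d).P, m ∉ A) ↔ ∀ m ∈ (p.nd (y, k)).P, m ∉ A)) ∧
      (∀ d : Nd, d.1 ∈ p.Λ → ∀ n O, In p.Λ O →
        ∃ i, Tri p.Λ n O (p.nd d) (v i) ∧ (d ∈ E ↔ ((v i).Z ∩ x).Infinite) ∧
          ((∀ m ∈ (p.nd d).P, m ∉ A) ↔ ∀ m ∈ (v i).P, m ∉ A)) ∧
      (∀ i, {m | m ∈ (v i).Z ∧ (m ∈ x ↔ ((v i).Z ∩ x).Infinite) ∧
        (m ∈ A ↔ ∀ m ∈ (v i).P, m ∉ A)}.Infinite) ∧
      ∀ S, Closed p S → (∀ d ∈ S, ∀ n O, In p.Λ O →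
        ∃ i, Tri p.Λ n O (p.nd d) (v i) ∧ ((v i).Z ∩ x).Infinite) → S ⊆ E := by
  let nd0 : Nd → V := fun d => if d.1 = x then v d.2.1 else p.nd d
  have o1 : ∀ d : Nd, d.1 ∈ p.Λ → nd0 d = p.nd d := fun d h =>
    if_neg fun e : d.1 = x => hx (e ▸ h)
  have o2 : ∀ k : K, nd0 (x, k) = v k.1 := fun k => if_pos rfl
  let le0 : L → L → Prop := fun a b => a ∈ p.Λ ∧ (b = x ∨ (b ∈ p.Λ ∧ p.le a b))
  let ι : Type := ℕ × {O : Finset J | In p.Λ O}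
  let Tr : ι → Nd → Nd → Prop := fun i a b => Tri p.Λ i.1 i.2 (nd0 a) (nd0 b)
  obtain ⟨E, E1, E2, E3⟩ := dec_abs (T := Nd) Prod.fst le0 Tr (fun d => d.1 = x)
    (fun d => ((v d.2.1).Z ∩ x).Infinite)
    (fun i j => ⟨(max i.1 j.1, ⟨i.2.1 ∪ j.2.1, fun c hc =>
        (Finset.mem_union.1 hc).elim (i.2.2 c) (j.2.2 c)⟩), fun a b h =>
      ⟨h.mono (le_max_left _ _) Finset.subset_union_left,
        h.mono (le_max_right _ _) Finset.subset_union_right⟩⟩)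
    (fun i a b c h h' => h.trans h')
    (by
      rintro a b z w ⟨-, ha⟩ ⟨-, hb⟩
      rcases ha with rfl | ⟨ha, -⟩ <;> rcases hb with rfl | ⟨hb, -⟩
      · exact Or.inr (Or.inl rfl)
      · exact Or.inr (Or.inr ⟨hb, Or.inl rfl⟩)
      · exact Or.inl ⟨ha, Or.inl rfl⟩
      · exact (hp.tot a ha b hb).imp (fun h => ⟨ha, Or.inr ⟨hb, h⟩⟩)
          fun h => Or.inr ⟨hb, Or.inr ⟨ha, h⟩⟩)
    (fun a y h h' => hx (h ▸ h'.1))
    (by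
      rintro a y ⟨ha, rfl | ⟨hy, h⟩⟩ i
      · obtain ⟨c, hc⟩ := hd a ha i.1 i.2 i.2.2
        refine ⟨(y, (c, ∅)), rfl, ?_⟩
        simp only [Tr, o1 a ha, o2]
        exact hc
      · obtain ⟨c, hc⟩ := hp.nxt a ha y hy h i.1 i.2 i.2.2
        refine ⟨(y, c), rfl, ?_⟩
        simp only [Tr, o1 a ha, o1 (y, c) hy]
        exact hc)
  have hcT : {t : Nd × L | le0 t.1.1 t.2}.Countable := by
    refine (((hp.cnt.prod (countable_univ (α := K))).prod (hp.cnt.insert x))).mono ?_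
    rintro t ⟨h1, h2⟩
    exact ⟨⟨h1, trivial⟩, h2.imp id fun h => h.1⟩
  have := hcT.to_subtype
  have := (in_countable hp.cnt).to_subtype
  obtain ⟨y0, hy0⟩ := hne
  have : Nonempty ({t : Nd × L | le0 t.1.1 t.2} × ι) :=
    ⟨(⟨((y0, (0, ∅)), x), hy0, Or.inl rfl⟩, 0, ⟨∅, fun j hj => by simp at hj⟩)⟩
  have hZ : ∀ i, {m | m ∈ (v i).Z ∧ (m ∈ x ↔ ((v i).Z ∩ x).Infinite)}.Infinite := by
    intro i
    by_cases h : ((v i).Z ∩ x).Infinite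
    · exact h.mono fun m hm => ⟨hm.1, iff_of_true hm.2 h⟩
    · exact ((hv i).sdiff (not_infinite.1 h)).mono fun m hm =>
        ⟨hm.1, iff_of_false (fun h' => hm.2 ⟨hm.1, h'⟩) h⟩
  obtain ⟨A, A1, A2⟩ := gen_abs (τ := {t : Nd × L | le0 t.1.1 t.2} × ι) (β := Nd)
    (fun t => (nd0 t.1.1.1).P) (fun b => (nd0 b).P)
    (fun t b => b.1 = t.1.1.2 ∧ Tr t.2 t.1.1.1 b ∧ (t.1.1.1 ∈ E ↔ b ∈ E))
    (fun t n => by
      obtain ⟨b, b1, b2, b3⟩ := E2 t.1.1.1 t.1.1.2 t.1.2 (max t.2.1 n, t.2.2)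
      exact ⟨b, ⟨b1, b2.mono (le_max_left _ _) subset_rfl, b3⟩,
        fun m h1 h2 => (le_max_right _ _).trans (b2.big m h1 h2).2⟩) _ hZ
  have H : ∀ (a : Nd) y, le0 a.1 y → ∀ i, ∃ b : Nd, b.1 = y ∧ Tr i a b ∧ (a ∈ E ↔ b ∈ E) ∧
      ((∀ m ∈ (nd0 a).P, m ∉ A) ↔ ∀ m ∈ (nd0 b).P, m ∉ A) := by
    intro a y h i
    by_cases ha : ∀ m ∈ (nd0 a).P, m ∉ A
    · obtain ⟨b, ⟨b1, b2, b3⟩, b4⟩ := A1 (⟨(a, y), h⟩, i) ha
      exact ⟨b, b1, b2, b3, iff_of_true ha b4⟩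
    · obtain ⟨b, b1, b2, b3⟩ := E2 a y h i
      exact ⟨b, b1, b2, b3, iff_of_false ha fun hb => ha fun m hm => hb m (b2.sub hm)⟩
  refine ⟨E, A, fun d h1 y hy hl n O hO => ?_, fun d h1 n O hO => ?_, fun i => ?_,
    fun S hS h d hd => ?_⟩
  · obtain ⟨⟨b, k⟩, rfl, b2, b3, b4⟩ := H d y ⟨h1, Or.inr ⟨hy, hl⟩⟩ (n, ⟨O, hO⟩)
    simp only [Tr, o1 d h1, o1 (b, k) hy] at b2 b4
    exact ⟨k, b2, b3, b4⟩
  · obtain ⟨⟨b, k⟩, rfl, b2, b3, b4⟩ := H d x ⟨h1, Or.inl rfl⟩ (n, ⟨O, hO⟩)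
    simp only [Tr, o1 d h1, o2] at b2 b4
    exact ⟨k.1, b2, b3.trans (E1 _ rfl), b4⟩
  · by_cases h : ∀ m ∈ (v i).P, m ∉ A
    · exact (A2 i).1.mono fun m hm => ⟨hm.1.1, hm.1.2, iff_of_true hm.2 h⟩
    · exact (A2 i).2.mono fun m hm => ⟨hm.1.1, hm.1.2, iff_of_false hm.2 h⟩
  · refine E3 (S ∪ {c | c.1 = x ∧ ((v c.2.1).Z ∩ x).Infinite}) ?_ ?_ (Or.inl hd)
    · rintro a (ha | ha) h'
      · exact (hx (h' ▸ (hS a ha).1)).elim
      · exact ha.2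
    · rintro a (ha | ha) y ⟨h1, h2⟩ i
      · rcases h2 with rfl | ⟨h2, h3⟩
        · obtain ⟨c, c1, c2⟩ := h a ha i.1 i.2 i.2.2
          refine ⟨(y, (c, ∅)), Or.inr ⟨rfl, c2⟩, rfl, ?_⟩
          simp only [Tr, o1 a h1, o2]
          exact c1
        · obtain ⟨c, c1, c2⟩ := (hS a ha).2 y h2 h3 i.1 i.2 i.2.2
          refine ⟨(y, c), Or.inl c1, rfl, ?_⟩
          simp only [Tr, o1 a h1, o1 (y, c) h2]
          exact c2
      · exact (hx (ha.1 ▸ h1)).elim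

theorem step {p : Raw} (hp : Good p) {x : L} (hx : x ∉ p.Λ) (hne : p.Λ.Nonempty) (v : ℕ → V)
    (hv : ∀ i, Virt p (v i))
    (hd : ∀ d : Nd, d.1 ∈ p.Λ → ∀ n O, In p.Λ O → ∃ i, Tri p.Λ n O (p.nd d) (v i)) :
    ∃ q, Good q ∧ Ext q p ∧ x ∈ q.Λ ∧ ∀ S, Closed p S → (∀ d ∈ S, ∀ n O, In p.Λ O →
      ∃ i, Tri p.Λ n O (p.nd d) (v i) ∧ ((v i).Z ∩ x).Infinite) →
        ∀ d ∈ S, (q.nd d).W (x, false) := by
  obtain ⟨E, A, h1, h2, h3, h4⟩ := signs hp hx hne v (fun i => (hv i).inf) hd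
  let Y : ℕ → Set ℕ := fun i => {m | m ∈ (v i).Z ∧ (m ∈ x ↔ ((v i).Z ∩ x).Infinite) ∧
    (m ∈ A ↔ ∀ m ∈ (v i).P, m ∉ A)}
  let nw : K → V := fun k => ⟨(v k.1).P ∪ k.2.filter (· ∈ Y k.1), Y k.1,
    (upd x A (v k.1) ((v k.1).Z ∩ x).Infinite).W⟩
  let q : Raw := ⟨insert x p.Λ, Function.update p.A x A,
    fun a b => b = x ∨ (a ∈ p.Λ ∧ b ∈ p.Λ ∧ p.le a b),
    fun d => if d.1 = x then nw d.2 else upd x A (p.nd d) (d ∈ E)⟩
  have ne : ∀ y ∈ p.Λ, y ≠ x := fun y h e => hx (e ▸ h)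
  have o1 : ∀ d : Nd, d.1 ∈ p.Λ → q.nd d = upd x A (p.nd d) (d ∈ E) :=
    fun d h => if_neg (ne _ h)
  have o2 : ∀ k : K, q.nd (x, k) = nw k := fun k => if_pos rfl
  have a1 : ∀ y ∈ p.Λ, q.A y = p.A y := fun y h => Function.update_of_ne (ne y h) _ _
  have a2 : q.A x = A := Function.update_self ..
  have hO : ∀ O, In q.Λ O → In p.Λ (O.filter fun j => j.1 ≠ x) := fun O h j hj =>
    (h j (Finset.mem_filter.1 hj).1).resolve_left (Finset.mem_filter.1 hj).2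
  have he : Ext q p := by
    refine ⟨subset_insert _ _, a1, fun a ha b hb h => Or.inr ⟨ha, hb, h⟩,
      fun d h => by rw [o1 d h]; rfl, fun d h => by rw [o1 d h]; rfl,
      fun d h j hj => by rw [o1 d h, upd_ne (ne _ hj)], fun d h y hy hy' => ?_⟩
    obtain rfl := hy.resolve_right hy'
    rw [o1 d h, upd_t, a2]
  refine ⟨q, ⟨hp.cnt.insert x, ?_, ?_, ?_, ?_⟩, he, mem_insert _ _, fun S hS h d hd => ?_⟩
  · rintro a (rfl | ha) b (rfl | hb)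
    · exact Or.inl (Or.inl rfl)
    · exact Or.inr (Or.inl rfl)
    · exact Or.inl (Or.inl rfl)
    · exact (hp.tot a ha b hb).imp (fun h => Or.inr ⟨ha, hb, h⟩) fun h => Or.inr ⟨hb, ha, h⟩
  · rintro ⟨z, k⟩ hz y - (rfl | ⟨l1, l2, l3⟩) n O hq
    · rcases hz with rfl | hz
      · obtain ⟨m, m1, m2⟩ := ((h3 k.1).sdiff (nw k).P.finite_toSet).exists_gt n
        refine ⟨(k.1, insert m k.2), ?_⟩
        rw [o2, o2]
        have : ∀ a, a ∈ (nw (k.1, insert m k.2)).P ↔ a = m ∨ a ∈ (nw k).P := by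
          intro a
          simp only [nw, Finset.mem_union, Finset.mem_filter, Finset.mem_insert]
          constructor
          · rintro (h | ⟨h | h, h'⟩)
            exacts [Or.inr (Or.inl h), Or.inl h, Or.inr (Or.inr ⟨h, h'⟩)]
          · rintro (rfl | h | h)
            exacts [Or.inr ⟨Or.inl rfl, m1.1⟩, Or.inl h, Or.inr ⟨Or.inr h.1, h.2⟩]
        refine ⟨fun a ha => (this a).2 (Or.inr ha), ⟨m, (this m).2 (Or.inl rfl), m1.2⟩,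
          fun a b1 b2 => ?_, subset_rfl, fun _ _ h => h, fun _ _ => Iff.rfl⟩
        obtain rfl := ((this a).1 b1).resolve_right b2
        exact ⟨m1.1, m2.le⟩
      · obtain ⟨i, i1, i2, i3⟩ := h2 (z, k) hz n _ (hO O hq)
        have t := i1.lift i2 i3
        refine ⟨(i, ∅), ?_⟩
        rw [o1 _ hz, o2]
        have : (nw (i, ∅)).P = (v i).P := by simp [nw]
        exact ⟨this ▸ t.sub, this ▸ t.new, this ▸ t.big, fun m hm => t.zs hm.1, t.mon, t.agr⟩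
    · obtain ⟨c, i1, i2, i3⟩ := h1 (z, k) l1 y l2 l3 n _ (hO O hq)
      refine ⟨c, ?_⟩
      rw [o1 _ l1, o1 (y, c) l2]
      exact i1.lift i2 i3
  · rintro ⟨z, k⟩ - ⟨y, b⟩ hy (rfl | ⟨l1, l2, l3⟩)
    · rw [o2]
      rcases hy with rfl | hy
      · refine finite_empty.subset fun m hm => hm.2 ?_
        cases b
        · exact hm.1.2.1.trans upd_f.symm
        · simp only [Raw.val, cond_true, a2]
          exact hm.1.2.2.trans upd_t.symm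
      · refine ((hv k.1).zs (y, b) hy).subset fun m hm => ⟨hm.1.1, ?_⟩
        rw [← he.val (j := (y, b)) hy, ← upd_ne (A := A) (e := ((v k.1).Z ∩ z).Infinite)
          (j := (y, b)) (ne y hy)]
        exact hm.2
    · rw [he.Z _ l2, he.val l1]
      simp only [he.W _ l2 _ l1]
      exact hp.zs _ l2 _ l1 l3
  · rintro ⟨z, k⟩ (rfl | hz) m hm
    · rw [o2] at hm ⊢
      have : m ∈ (v k.1).P ∨ m ∈ (v k.1).Z :=
        (Finset.mem_union.1 hm).imp id fun h => (Finset.mem_filter.1 h).2.1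
      refine (((hv k.1).fin m this).insert z).subset ?_
      rintro y ⟨rfl | hy, b1, b2⟩
      · exact Or.inl rfl
      · exact Or.inr ⟨hy, (upd_ne (j := (y, true)) (ne y hy)).1 b1, a1 y hy ▸ b2⟩
    · rw [he.P _ hz] at hm
      exact (hp.fin _ hz m hm).subset (he.fin_sub hz hm)
  · rw [o1 d (hS d hd).1, upd_f]
    exact h4 S hS h hd

theorem add : AddStmt := by
  intro p x
  by_cases hx : x ∈ p.1.Λ
  · exact ⟨p, le_rfl, hx⟩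
  obtain ⟨v, v1, v2⟩ := virt p.2.1 p.2.1.closed ⟨_, root_mem p⟩
  obtain ⟨q, q1, q2, q3, -⟩ := step p.2.1 hx ⟨_, root_mem p⟩ v v1
    fun d hd n O hO => (v2 d hd n O hO).imp fun _ h => h.1
  exact ⟨⟨q, q1, q2.trans p.2.2⟩, q2, q3⟩

/-- Sets signed positively on a closed set of nodes get a positive pseudo-intersection. -/
theorem pseudo {p : Raw} (hp : Good p) {S : Set Nd} (hS : Closed p S) (hne : p.Λ.Nonempty)
    (X : ℕ → L) (hX : ∀ k, X k ∈ p.Λ) (hW : ∀ k, ∀ e ∈ S, (p.nd e).W (X k, false)) :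
    ∃ q B, Good q ∧ Ext q p ∧ B ∈ q.Λ ∧ (∀ d ∈ S, (q.nd d).W (B, false)) ∧
      ∀ k, (B \ X k).Finite := by
  obtain ⟨v, v1, v2⟩ := virt hp hS hne
  let I : Set ℕ := {i | ∀ k, (v i).W (X k, false)}
  have f1 : ∀ i ∈ I, ∀ k, ((v i).Z \ X k).Finite := fun i hi k =>
    ((v1 i).zs (X k, false) (hX k)).subset fun m hm => ⟨hm.1, fun h => hm.2 (h.2 (hi k))⟩
  let B : L := {m | ∃ i ∈ I, m ∈ (v i).Z ∧ ∀ k ≤ i, m ∈ X k}
  have f2 : ∀ i ∈ I, ((v i).Z ∩ B).Infinite := by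
    intro i hi
    refine ((v1 i).inf.sdiff ((finite_le_nat i).biUnion fun k _ => f1 i hi k)).mono
      fun m hm => ⟨hm.1, i, hi, hm.1, fun k hk => ?_⟩
    by_contra hc
    exact hm.2 (mem_biUnion hk ⟨hm.1, hc⟩)
  have f3 : ∀ k, (B \ X k).Finite := by
    intro k
    refine (((finite_lt_nat k).inter_of_left I).biUnion fun i hi => f1 i hi.2 k).subset ?_
    rintro m ⟨⟨i, i1, i2, i3⟩, h⟩
    exact mem_biUnion (x := i) ⟨not_le.1 fun hk => h (i3 k hk), i1⟩ ⟨i2, h⟩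
  have f4 : ∀ d ∈ S, ∀ n O, In p.Λ O →
      ∃ i, Tri p.Λ n O (p.nd d) (v i) ∧ ((v i).Z ∩ B).Infinite := fun d hd n O hO =>
    let ⟨i, i1, i2⟩ := v2 d (hS d hd).1 n O hO
    ⟨i, i1, f2 i fun k => i2 hd _ (hW k)⟩
  by_cases hB : B ∈ p.Λ
  · refine ⟨p, B, hp, Ext.refl p, hB, fun d hd => ?_, f3⟩
    obtain ⟨i, i1, i2⟩ := f4 d hd 0 {(B, false)} fun j hj => by
      rw [Finset.mem_singleton.1 hj]; exact hB
    rw [i1.agr _ (Finset.mem_singleton_self _)]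
    by_contra hc
    exact i2 (((v1 i).zs (B, false) hB).subset fun m hm => ⟨hm.1, fun h => hc (h.1 hm.2)⟩)
  · obtain ⟨q, q1, q2, q3, q4⟩ := step hp hB hne v v1
      fun d hd n O hO => (v2 d hd n O hO).imp fun _ h => h.1
    exact ⟨q, B, q1, q2, q3, q4 S hS f4, f3⟩

end Pool.Agent.Lib.MP_8fdcc7_lc.Q2
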