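import Mathlib
import Pool.Agent.Lib.MP_8fdcc7_lc.Q2.Step

/-!
The fusion argument.
-/

namespace Pool.Agent.Lib.MP_8fdcc7_lc.Q2

open Set Classical

def Large (Dec : Cnd → L → L → Prop) (r : Cnd) (t : Set Nd) : Prop :=
  ∀ r' ≤ r, ∀ C : Set L, C.Countable → ∃ r'' ≤ r', ∃ x ∉ C, ∃ X, Dec r'' x X ∧ X ∈ r''.1.Λ ∧
    ∀ d ∈ t, (r''.1.nd d).W (X, false)

theorem Large.mono {Dec : Cnd → L → L → Prop} {r q : Cnd} {t : Set Nd} (h : Large Dec r t)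
    (hq : q ≤ r) : Large Dec q t := fun r' hr => h r' (hr.trans hq)

theorem pigeon {Dec : Cnd → L → L → Prop} {r : Cnd} {t : Set Nd} (hL : Large Dec r t) {d : Nd}
    (hd : d ∈ t) (h1 : d.1 ∈ r.1.Λ) {y : L} (hy : y ∈ r.1.Λ) (hl : r.1.le d.1 y) (n : ℕ)
    {O : Finset J} (hO : In r.1.Λ O) : ∃ r' ≤ r, ∃ k,
      Tri r.1.Λ n O (r.1.nd d) (r.1.nd (y, k)) ∧ Large Dec r' (insert (y, k) t) := by
  by_contra hc
  obtain ⟨q, q1, q2⟩ := dense_all (fun k : K => {q : Cnd | ∃ C : Set L, C.Countable ∧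
      (Tri r.1.Λ n O (r.1.nd d) (r.1.nd (y, k)) → ∀ r'' ≤ q, ∀ x ∉ C, ∀ X, Dec r'' x X →
        X ∈ r''.1.Λ → ¬ ∀ e ∈ insert (y, k) t, (r''.1.nd e).W (X, false))})
    (fun k p ⟨C, c1, c2⟩ q hq => ⟨C, c1, fun h r'' hr => c2 h r'' (hr.trans hq)⟩) r (by
      intro k q hq
      by_cases h : Tri r.1.Λ n O (r.1.nd d) (r.1.nd (y, k))
      · by_contra hn
        refine hc ⟨q, hq, k, h, fun r' hr C hC => ?_⟩
        by_contra hm
        exact hn ⟨r', hr, C, hC, fun _ r'' a x b X c e f => hm ⟨r'', a, x, b, X, c, e, f⟩⟩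
      · exact ⟨q, le_rfl, ∅, countable_empty, fun h' => (h h').elim⟩)
  choose C c1 c2 using q2
  obtain ⟨s, s1, x, x1, X, X1, X2, X3⟩ := hL q q1 (⋃ k, C k) (countable_iUnion c1)
  have e : Ext s.1 r.1 := s1.trans q1
  obtain ⟨k, hk⟩ := s.2.1.nxt d (e.sub h1) y (e.sub hy) (e.le _ h1 _ hy hl) n
    (insert (X, false) O) fun j hj =>
      (Finset.mem_insert.1 hj).elim (fun h => h ▸ X2) fun h => e.sub (hO j h)
  refine c2 k (e.tri_down hO h1 hy (hk.mono le_rfl (Finset.subset_insert _ _))) s s1 x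
    (fun h => x1 (mem_iUnion.2 ⟨k, h⟩)) X X1 X2 ?_
  rintro a (rfl | ha)
  · exact (hk.agr _ (Finset.mem_insert_self _ _)).1 (X3 d hd)
  · exact X3 a ha

structure St (Dec : Cnd → L → L → Prop) (p : Cnd) where
  r : Cnd
  t : Set Nd
  C : Finset (L × L)
  le : r ≤ p
  rt : root ∈ t
  lev : ∀ d ∈ t, d.1 ∈ r.1.Λ
  lg : Large Dec r t
  dec : ∀ c ∈ C, Dec r c.1 c.2 ∧ c.2 ∈ r.1.Λ ∧ ∀ d ∈ t, (r.1.nd d).W (c.2, false)

def St.Ta {Dec : Cnd → L → L → Prop} {p : Cnd} (s : St Dec p) : Set (Nd × L × ℕ × Finset J) :=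
  {u | u.1 ∈ s.t ∧ u.2.1 ∈ s.r.1.Λ ∧ s.r.1.le u.1.1 u.2.1 ∧ In s.r.1.Λ u.2.2.2}

def St.R {Dec : Cnd → L → L → Prop} {p : Cnd} (s : St Dec p) (u : Nd × L × ℕ × Finset J)
    (s' : St Dec p) : Prop :=
  s'.r ≤ s.r ∧ s.t ⊆ s'.t ∧ s.C ⊆ s'.C ∧ (∃ c ∈ s'.C, ∀ c' ∈ s.C, c'.1 ≠ c.1) ∧
    (u ∈ s.Ta → ∃ k, (u.2.1, k) ∈ s'.t ∧
      Tri s.r.1.Λ u.2.2.1 u.2.2.2 (s.r.1.nd u.1) (s.r.1.nd (u.2.1, k)))

theorem St.next {Dec : Cnd → L → L → Prop} (hm : ∀ p q x X, q ≤ p → Dec p x X → Dec q x X)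
    {p : Cnd} (s : St Dec p) (u : Nd × L × ℕ × Finset J) : ∃ s', s.R u s' := by
  have : ∃ r' ≤ s.r, ∃ t', s.t ⊆ t' ∧ (∀ d ∈ t', d.1 ∈ s.r.1.Λ) ∧ Large Dec r' t' ∧
      (∀ c ∈ s.C, ∀ d ∈ t', (s.r.1.nd d).W (c.2, false)) ∧ (u ∈ s.Ta → ∃ k, (u.2.1, k) ∈ t' ∧
        Tri s.r.1.Λ u.2.2.1 u.2.2.2 (s.r.1.nd u.1) (s.r.1.nd (u.2.1, k))) := by
    by_cases hu : u ∈ s.Ta
    · obtain ⟨u1, u2, u3, u4⟩ := hu
      obtain ⟨r', r1, k, k1, k2⟩ := pigeon s.lg u1 (s.lev _ u1) u2 u3 u.2.2.1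
        (O := u.2.2.2 ∪ s.C.image fun c => (c.2, false)) (by
          intro j hj
          rcases Finset.mem_union.1 hj with h | h
          · exact u4 j h
          · obtain ⟨c, hc, rfl⟩ := Finset.mem_image.1 h
            exact (s.dec c hc).2.1)
      refine ⟨r', r1, _, subset_insert _ _, ?_, k2, ?_,
        fun _ => ⟨k, mem_insert _ _, k1.mono le_rfl Finset.subset_union_left⟩⟩
      · rintro d (rfl | hd)
        exacts [u2, s.lev d hd]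
      · rintro c hc d (rfl | hd)
        · exact (k1.agr _ (Finset.mem_union_right _ (Finset.mem_image_of_mem _ hc))).1
            ((s.dec c hc).2.2 _ u1)
        · exact (s.dec c hc).2.2 d hd
    · exact ⟨s.r, le_rfl, s.t, subset_rfl, s.lev, s.lg, fun c hc => (s.dec c hc).2.2,
        fun h => (hu h).elim⟩
  obtain ⟨r', r1, t', t1, t2, t3, t4, t5⟩ := this
  obtain ⟨q, q1, x, x1, X, X1, X2, X3⟩ := t3 r' le_rfl (Prod.fst '' (s.C : Set (L × L)))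
    (s.C.finite_toSet.image _).countable
  have e : q ≤ s.r := q1.trans r1
  refine ⟨⟨q, t', insert (x, X) s.C, e.trans s.le, t1 s.rt, fun d hd => Ext.sub e (t2 d hd),
    t3.mono q1, fun c hc => ?_⟩, e, t1, Finset.subset_insert _ _,
    ⟨(x, X), Finset.mem_insert_self _ _, fun c' hc' h => x1 ⟨c', hc', h⟩⟩, t5⟩
  rcases Finset.mem_insert.1 hc with rfl | hc
  · exact ⟨X1, X2, X3⟩
  · exact ⟨hm _ _ _ _ e (s.dec c hc).1, Ext.sub e (s.dec c hc).2.1, fun d hd =>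
      (Ext.W e d (t2 d hd) (c.2, false) (s.dec c hc).2.1).2 (t4 c hc d hd)⟩

theorem exists_not_mem {C : Set L} (h : C.Countable) : ∃ x, x ∉ C := by
  obtain ⟨f, hf⟩ := countable_iff_exists_subset_range.1 h
  refine ⟨{n | n ∉ f n}, fun hx => ?_⟩
  obtain ⟨n, hn⟩ := hf hx
  have : n ∈ f n ↔ n ∉ f n := by
    conv_lhs => rw [hn]
    rfl
  tauto

theorem fuse : FuseStmt := by
  intro Dec hm p h
  let s0 : St Dec p := ⟨p, {root}, ∅, le_rfl, rfl, fun d hd => by rw [hd]; exact root_mem p, by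
    intro r hr C hC
    obtain ⟨x, hx⟩ := exists_not_mem hC
    obtain ⟨r', r1, X, X1, X2⟩ := h r hr x
    exact ⟨r', r1, x, hx, X, X1, X2.1, fun d hd => by rw [hd]; exact X2.2⟩, by simp⟩
  obtain ⟨s, u, -, s1, s2⟩ := book s0 St.R St.Ta (fun s => by
    refine ((s.r.2.1.cnt.prod (countable_univ (α := K))).prod (s.r.2.1.cnt.prod
      ((countable_univ (α := ℕ)).prod (in_countable s.r.2.1.cnt)))).mono ?_
    rintro u ⟨u1, u2, -, u4⟩
    exact ⟨⟨s.lev _ u1, trivial⟩, u2, trivial, u4⟩) (St.next hm)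
  have hr : ∀ k, Ext (s (k + 1)).r.1 (s k).r.1 := fun k => (s1 k).1
  have ht : Monotone fun k => (s k).t := monotone_nat_of_le_succ fun k => (s1 k).2.1
  have hC : Monotone fun k => (s k).C := monotone_nat_of_le_succ fun k => (s1 k).2.2.1
  obtain ⟨q, q1, q2, q3, q4⟩ := exists_lb (fun k => (s k).r.1) (fun k => (s k).r.2.1) hr
  have hS : Closed q (⋃ k, (s k).t) := by
    intro d hd
    obtain ⟨i, hi⟩ := mem_iUnion.1 hd
    refine ⟨(q2 i).sub ((s i).lev d hi), fun y _ hl n O hO => ?_⟩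
    obtain ⟨k, k1, k2, k3⟩ := q4 _ _ hl
    obtain ⟨m, m1, m2⟩ := in_bound (r := fun k => (s k).r.1) hr O
      (fun j hj => q3 _ (hO j hj)) (max i k)
    have T : ∀ j, m ≤ j → (d, y, n, O) ∈ (s j).Ta := by
      intro j hj
      have e := ext_of_succ (r := fun k => (s k).r.1) hr
        ((le_max_right i k).trans (m1.trans hj))
      exact ⟨ht ((le_max_left i k).trans (m1.trans hj)) hi, e.sub k2, e.le _ k1 _ k2 k3,
        fun c hc => (ext_of_succ (r := fun k => (s k).r.1) hr hj).sub (m2 c hc)⟩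
    obtain ⟨j, j1, j2⟩ := s2 m _ (T m le_rfl)
    have := (s1 j).2.2.2.2
    rw [j2] at this
    obtain ⟨c, c1, c2⟩ := this (T j j1)
    obtain ⟨a1, a2, -, a4⟩ := T j j1
    exact ⟨c, mem_iUnion.2 ⟨_, c1⟩, (q2 j).tri_up a4 ((s j).lev _ a1) a2 c2⟩
  choose c c1 c2 using fun k => (s1 k).2.2.2.1
  obtain ⟨w, B, w1, w2, w3, w4, w5⟩ := pseudo q1 hS ⟨_, (q2 0).sub (root_mem _)⟩
    (fun k => (c k).2) (fun k => (q2 _).sub ((s _).dec _ (c1 k)).2.1) (by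
      intro k e he
      obtain ⟨i, hi⟩ := mem_iUnion.1 he
      have a := (s (max i (k + 1))).dec _ (hC (le_max_right _ _) (c1 k))
      have b := ht (le_max_left i (k + 1)) hi
      exact ((q2 _).W e ((s _).lev e b) (_, false) a.2.1).2 (a.2.2 e b))
  let w' : Cnd := ⟨w, w1, (w2.trans (q2 0)).trans (s 0).r.2.2⟩
  have hw : ∀ k, w' ≤ (s k).r := fun k => w2.trans (q2 k)
  refine ⟨w', (hw 0).trans (s 0).le, fun k => (c k).1, fun k => (c k).2, B, ?_,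
    ⟨w3, w4 _ (mem_iUnion.2 ⟨0, (s 0).rt⟩)⟩,
    fun k => ⟨hm _ _ _ _ (hw _) ((s _).dec _ (c1 k)).1, w5 k⟩⟩
  have : ∀ j k, j < k → (c j).1 ≠ (c k).1 := fun j k h => c2 k _ (hC h (c1 j))
  intro j k e
  rcases lt_trichotomy j k with h | h | h
  · exact (this j k h e).elim
  · exact h
  · exact (this k j h e.symm).elim

end Pool.Agent.Lib.MP_8fdcc7_lc.Q2
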