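import Mathlib
import Pool.Agent.Shared.Forcing
import Pool.Agent.Lib.MP_8fdcc7_lc.Q2.Cnd
import Pool.Agent.Lib.MP_8fdcc7_lc.Q2.Defs

/-!
The generic ultrafilter in the generic extension.
-/

namespace Pool.Agent.Lib.MP_8fdcc7_lc.Q2

open Set Classical Pool.Agent.Lib.MP_053343_lc Pool.Agent.Lib.MP_053343_lc.Name
  Pool.Agent.Shared.Forcing

theorem mem_enc {A : Set ℕ} {x : ZFSet} : x ∈ enc A ↔ ∃ n ∈ A, x = nat n := by
  unfold enc
  rw [ZFSet.mem_range]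
  exact ⟨fun ⟨a, h⟩ => ⟨a.1, a.2, h.symm⟩, fun ⟨a, h1, h⟩ => ⟨⟨a, h1⟩, h.symm⟩⟩

theorem nat_mem_enc {A : Set ℕ} {n : ℕ} : nat n ∈ enc A ↔ n ∈ A := by
  rw [mem_enc]
  exact ⟨fun ⟨m, h1, h⟩ => by rwa [nat_inj h], fun h => ⟨n, h, rfl⟩⟩

theorem enc_inj {A B : Set ℕ} (h : enc A = enc B) : A = B := by
  ext n
  rw [← nat_mem_enc, h, nat_mem_enc]

theorem mem_encF {a : Finset (Set ℕ)} {z : ZFSet} : z ∈ encF a ↔ ∃ x ∈ a, z = enc x := by
  unfold encF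
  rw [ZFSet.mem_range]
  exact ⟨fun ⟨a, h⟩ => ⟨a.1, a.2, h.symm⟩, fun ⟨a, h1, h⟩ => ⟨⟨a, h1⟩, h.symm⟩⟩

theorem encF_inj {a b : Finset (Set ℕ)} (h : encF a = encF b) : a = b := by
  have k : ∀ (a : Finset (Set ℕ)) x, enc x ∈ encF a ↔ x ∈ a := fun a x => by
    rw [mem_encF]
    exact ⟨fun ⟨y, h1, h⟩ => by rwa [enc_inj h], fun h => ⟨x, h, rfl⟩⟩
  ext x
  rw [← k, h, k]

theorem natN_eq (n : ℕ) : (natN n : Name Cnd) = setN fun i : Fin n => natN i := by rw [natN]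

theorem feq_natN {n : ℕ} : ∀ {m : ℕ} {p : Cnd}, FEq (natN n) (natN m) p → n = m := by
  induction n using Nat.strong_induction_on with
  | h n ih =>
    intro m p h
    rw [natN_eq n, natN_eq m, feq_iff] at h
    rcases lt_trichotomy n m with hl | hl | hl
    · obtain ⟨r, _, i, _, h'⟩ := h.2 (⟨n, hl⟩ : Fin m) p le_rfl le_top
      exact absurd (ih _ i.2 h') (Nat.ne_of_lt i.2)
    · exact hl
    · obtain ⟨r, _, i, _, h'⟩ := h.1 (⟨m, hl⟩ : Fin n) p le_rfl le_top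
      exact absurd (ih _ hl h').symm (Nat.ne_of_lt i.2)

def realN (A : Set ℕ) : Name Cnd := setN fun n : A => natN n

def dR (τ : Name Cnd) : Set ℕ := {n | FMem (natN n) τ ⊤}

@[simp] theorem dR_realN (A : Set ℕ) : dR (realN A) = A := by
  ext n
  constructor
  · rintro ⟨j, _, h⟩
    rw [feq_natN h]; exact j.2
  · exact fun h => ⟨⟨n, h⟩, le_rfl, FEq.refl _ _⟩

def finN (a : Finset (Set ℕ)) : Name Cnd := setN fun x : a => realN x

/-- The intersection of the sets `A y`, `y ∈ a`, read in the condition `p`. -/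
def cap (p : Cnd) (a : Finset (Set ℕ)) : Set ℕ := {m | ∀ y ∈ a, m ∈ p.1.A y}

theorem cap_mono {p q : Cnd} (h : q ≤ p) {a : Finset (Set ℕ)} (ha : ∀ y ∈ a, y ∈ p.1.Λ) :
    cap q a = cap p a :=
  Set.ext fun _ => forall₂_congr fun y hy => by rw [Ext.A h y (ha y hy)]

def UN : Name Cnd := ⟨{x : Set ℕ × Cnd // InU x.2 x.1}, fun x => realN x.1.1, fun x => x.1.2⟩

def FN : Name Cnd := ⟨{x : Finset (Set ℕ) × Cnd // ∀ y ∈ x.1, y ∈ x.2.1.Λ},
  fun x => pairN (finN x.1.1) (realN (cap x.1.2 x.1.1)), fun x => x.1.2⟩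

def Dec (f : Name Cnd) (q : Cnd) (x X : Set ℕ) : Prop :=
  FMem (pairN (finN {x}) (realN X)) f q

def Bad (f : Name Cnd) (q : Cnd) (x : Set ℕ) : Prop := ∀ r ≤ q, ¬ ∃ X, Dec f r x X ∧ InU r X

def Wit (f : Name Cnd) (q : Cnd) (x X : ℕ → Set ℕ) (B : Set ℕ) : Prop :=
  Function.Injective x ∧ InU q B ∧ ∀ k, Dec f q (x k) (X k) ∧ (B \ X k).Finite

theorem tukey_dense (hF : FuseStmt) (f : Name Cnd) (p : Cnd) :
    ∃ q ≤ p, (∃ x, Bad f q x) ∨ ∃ x X B, Wit f q x X B := by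
  by_cases hb : ∃ q ≤ p, ∃ x, Bad f q x
  · obtain ⟨q, q1, q2⟩ := hb
    exact ⟨q, q1, Or.inl q2⟩
  obtain ⟨q, q1, h⟩ := hF (Dec f) (fun _ _ _ _ hq h => FMem.mono h hq) p fun r hr x => by
    by_contra hc
    exact hb ⟨r, hr, x, fun r' hr' h' => hc ⟨r', hr', h'⟩⟩
  exact ⟨q, q1, Or.inr h⟩

inductive UR : Type
  | real | U | F | fin | cap | inter | compl | bad | wit
  deriving Countable

def UR.ev : UR → List (Name Cnd) → Name Cnd → Prop
  | .real, l, x => x = realN {n | FMem (natN n) (l.getD 1 empty) (dC (l.getD 0 empty))}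
  | .U, _, x => x = UN
  | .F, _, x => x = FN
  | .fin, l, x => x = finN (l.map dR).toFinset
  | .cap, l, x => x = realN (Q2.cap (dC (l.getD 0 empty)) (l.tail.map dR).toFinset)
  | .inter, l, x => x = realN (dR (l.getD 0 empty) ∩ dR (l.getD 1 empty))
  | .compl, l, x => x = realN (dR (l.getD 0 empty))ᶜ
  | .bad, l, x => ∃ y, Bad (l.getD 1 empty) (dC (l.getD 0 empty)) y ∧ x = finN {y}
  | .wit, l, x => ∃ y X B, Wit (l.getD 1 empty) (dC (l.getD 0 empty)) y X B ∧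
      x = pairN (setN fun j => finN {y j}) (pairN (setN fun j => realN (X j)) (realN B))

inductive UD : Type
  | real | add | tuk
  deriving Countable

def UD.ev : UD → List (Name Cnd) → Set Cnd
  | .real, l => {p | ∀ n, FMem (natN n) (l.getD 0 empty) p ∨
      ∀ q ≤ p, ¬ FMem (natN n) (l.getD 0 empty) q}
  | .add, l => {p | dR (l.getD 0 empty) ∈ p.1.Λ}
  | .tuk, l => {q | (∃ x, Bad (l.getD 0 empty) q x) ∨ ∃ x X B, Wit (l.getD 0 empty) q x X B}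

section model

variable (C : Ctx UR.ev UD.ev)

theorem ufun (b : UR) {l : List (Name Cnd)} (hl : ∀ x ∈ l, x ∈ C.N) {y : Name Cnd}
    (h : ∀ x, b.ev l x ↔ x = y) : y ∈ C.N := by
  obtain ⟨x, hx, e⟩ := C.uwit b hl ⟨y, (h y).2 rfl⟩
  rwa [(h x).1 e] at hx

theorem val_realN {A : Set ℕ} (h : realN A ∈ C.N) : C.val (realN A) = enc A := by
  ext x
  rw [realN, C.mem_val_setN h, mem_enc]
  exact ⟨fun ⟨n, h⟩ => ⟨n.1, n.2, by rw [h, C.val_natN]⟩,
    fun ⟨n, h1, h⟩ => ⟨⟨n, h1⟩, by rw [h, C.val_natN]⟩⟩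

theorem real_M {A : Set ℕ} (h : realN A ∈ C.N) : enc A ∈ C.M :=
  val_realN C h ▸ C.val_mem_M h

/-- No new reals. -/
theorem realN_mem {A : Set ℕ} (h : enc A ∈ C.M) : realN A ∈ C.N := by
  obtain ⟨σ, hσ, e⟩ := C.mem_M.1 h
  obtain ⟨p, hp, hd⟩ := C.udense .real (C.one hσ) C.top fun q _ =>
    decide_all (fun n : ℕ => {p | FMem (natN n) σ p}) (fun _ _ hp _ hq => FMem.mono hp hq) q
  obtain ⟨q, hq, q1, q2⟩ := C.cof p hp
  have : A = {n | FMem (natN n) σ q} := by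
    ext n
    rw [← nat_mem_enc, ← e, ← C.val_natN, C.val_mem_iff (C.natN_mem n) hσ]
    constructor
    · rintro ⟨r, hr, h'⟩
      rcases hd n with h1 | h1
      · exact FMem.mono h1 q1
      · obtain ⟨s, _, s1, s2⟩ := C.dir p hp r hr
        exact (h1 s s1 (h'.mono s2)).elim
    · exact fun h' => ⟨q, hq, h'⟩
  rw [this]
  exact ufun C .real (C.two q2 hσ) fun _ => by simp [UR.ev]

theorem fin_child {a : Finset (Set ℕ)} (h : finN a ∈ C.N) {x : Set ℕ} (hx : x ∈ a) :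
    realN x ∈ C.N := C.setN_child (A := fun x : a => realN x) h ⟨x, hx⟩

theorem val_finN {a : Finset (Set ℕ)} (h : finN a ∈ C.N) : C.val (finN a) = encF a := by
  ext z
  rw [finN, C.mem_val_setN h, mem_encF]
  exact ⟨fun ⟨x, e⟩ => ⟨x.1, x.2, by rw [e, val_realN C (fin_child C h x.2)]⟩,
    fun ⟨x, h1, e⟩ => ⟨⟨x, h1⟩, by rw [e, val_realN C (fin_child C h h1)]⟩⟩

theorem fin_in {a : Finset (Set ℕ)} (h : finN a ∈ C.N) : FinIn C.M a :=
  fun _ hx => real_M C (fin_child C h hx)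

theorem list_mem {a : Finset (Set ℕ)} (h : FinIn C.M a) : ∀ x ∈ a.toList.map realN, x ∈ C.N := by
  intro x hx
  obtain ⟨y, hy, rfl⟩ := List.mem_map.1 hx
  exact realN_mem C (h y (Finset.mem_toList.1 hy))

theorem list_eq (a : Finset (Set ℕ)) : ((a.toList.map realN).map dR).toFinset = a := by
  ext x
  simp

theorem finN_mem {a : Finset (Set ℕ)} (h : FinIn C.M a) : finN a ∈ C.N :=
  ufun C .fin (list_mem C h) fun _ => by rw [UR.ev, list_eq]

theorem cap_mem {a : Finset (Set ℕ)} (h : FinIn C.M a) {p : Cnd} (hp : cN p ∈ C.N) :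
    realN (cap p a) ∈ C.N :=
  ufun C .cap (C.cons hp (list_mem C h)) fun _ => by
    rw [UR.ev, List.tail_cons, list_eq, List.getD_cons_zero, dC_cN]

theorem added (hA : AddStmt) {X : Set ℕ} (h : realN X ∈ C.N) : ∃ p ∈ C.G, X ∈ p.1.Λ := by
  obtain ⟨p, hp, h⟩ := C.udense .add (C.one h) C.top fun q _ => hA q _
  exact ⟨p, hp, by simpa [UD.ev] using h⟩

theorem added_fin (hA : AddStmt) {a : Finset (Set ℕ)} (h : FinIn C.M a) :
    ∃ p ∈ C.G, cN p ∈ C.N ∧ ∀ y ∈ a, y ∈ p.1.Λ := by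
  induction a using Finset.induction_on with
  | empty =>
    obtain ⟨q, q1, -, q2⟩ := C.cof _ C.top
    exact ⟨q, q1, q2, by simp⟩
  | insert x a _ ih =>
    obtain ⟨p, p1, -, p2⟩ := ih fun y hy => h y (Finset.mem_insert_of_mem hy)
    obtain ⟨p', p3, p4⟩ := added C hA (realN_mem C (h x (Finset.mem_insert_self _ _)))
    obtain ⟨r, r1, r2, r3⟩ := C.dir p p1 p' p3
    obtain ⟨q, q1, q2, q3⟩ := C.cof r r1
    refine ⟨q, q1, q3, fun y hy => ?_⟩
    rcases Finset.mem_insert.1 hy with rfl | hy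
    · exact Ext.sub (q2.trans r3) p4
    · exact Ext.sub (q2.trans r2) (p2 y hy)

def UU : Set (Set ℕ) := {E | realN E ∈ C.N ∧ ∃ p ∈ C.G, InU p E}

/-- A set of the model that contains a finite intersection of generators is in `U`. -/
theorem mem_UU (hA : AddStmt) {B : Set ℕ} (hB : realN B ∈ C.N) {p : Cnd} (hp : p ∈ C.G)
    (s t : Finset L) (hs : ∀ X ∈ s, InU p X) (ht : ∀ y ∈ t, y ∈ p.1.Λ)
    (h : ∀ m, (∀ X ∈ s, m ∈ X) → m ∈ cap p t → m ∈ B) : B ∈ UU C := by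
  obtain ⟨q, hq, q1⟩ := added C hA hB
  obtain ⟨r, hr, r1, r2⟩ := C.dir p hp q hq
  refine ⟨hB, r, hr, by_contra fun hn => ?_⟩
  obtain ⟨m, m1, m2, m3⟩ := (root_consis r s t {B} (fun X hX => (hs X hX).mono r1)
    (fun y hy => Ext.sub r1 (ht y hy)) fun X hX => by
      rw [Finset.mem_singleton.1 hX]
      exact ⟨Ext.sub r2 q1, hn⟩).nonempty
  exact m3 B (Finset.mem_singleton_self B) (h m m1 (cap_mono r1 ht ▸ m2))

theorem ultra (hA : AddStmt) : Ultra C.M (UU C) := by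
  have hU : UN ∈ C.N := ufun C .U C.nil fun _ => Iff.rfl
  refine ⟨⟨_, C.val_mem_M hU, fun z => ?_⟩, ?_, ?_, ?_, ?_⟩
  · rw [C.mem_val]
    constructor
    · rintro ⟨⟨⟨E, p⟩, h⟩, a, b, rfl⟩
      exact ⟨E, ⟨a, p, b, h⟩, val_realN C a⟩
    · rintro ⟨E, ⟨a, p, b, h⟩, rfl⟩
      exact ⟨⟨(E, p), h⟩, a, b, (val_realN C a).symm⟩
  · rintro E ⟨_, p, _, h⟩
    exact (root_consis p {E} ∅ ∅ (by simpa using h) (by simp) (by simp)).mono
      fun m hm => hm.1 E (Finset.mem_singleton_self E)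
  · rintro E ⟨a, p, b, h⟩ E' ⟨a', p', b', h'⟩
    obtain ⟨r, hr, r1, r2⟩ := C.dir p b p' b'
    exact mem_UU C hA (ufun C .inter (C.two a a') fun _ => by simp [UR.ev]) hr {E, E'} ∅
      (by simpa using ⟨h.mono r1, h'.mono r2⟩) (by simp) fun m hm _ => by simpa using hm
  · rintro E ⟨_, p, b, h⟩ E' hE' hs
    exact mem_UU C hA (realN_mem C hE') b {E} ∅ (by simpa using h) (by simp)
      fun m hm _ => hs (hm E (Finset.mem_singleton_self E))
  · intro E hE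
    have a := realN_mem C hE
    have a' : realN Eᶜ ∈ C.N := ufun C .compl (C.one a) fun _ => by simp [UR.ev]
    obtain ⟨p, hp, h⟩ := added C hA a
    obtain ⟨p', hp', h'⟩ := added C hA a'
    obtain ⟨r, hr, r1, r2⟩ := C.dir p hp p' hp'
    by_contra hn
    rw [not_or] at hn
    obtain ⟨m, -, -, m3⟩ := (root_consis r ∅ ∅ {E, Eᶜ} (by simp) (by simp) (by
      simpa using ⟨⟨Ext.sub r1 h, fun k => hn.1 ⟨a, r, hr, k⟩⟩,
        Ext.sub r2 h', fun k => hn.2 ⟨a', r, hr, k⟩⟩)).nonempty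
    exact m3 Eᶜ (by simp) (m3 E (by simp))

/-- The Tukey map. -/
def FG (a : Finset (Set ℕ)) : Set ℕ := {m | ∀ p ∈ C.G, (∀ y ∈ a, y ∈ p.1.Λ) → m ∈ cap p a}

theorem FG_eq {a : Finset (Set ℕ)} {p : Cnd} (hp : p ∈ C.G) (h : ∀ y ∈ a, y ∈ p.1.Λ) :
    FG C a = cap p a := by
  refine Subset.antisymm (fun m hm => hm p hp h) fun m hm q hq h' => ?_
  obtain ⟨r, -, r1, r2⟩ := C.dir p hp q hq
  rwa [← cap_mono r2 h', cap_mono r1 h]

theorem top (hA : AddStmt) : TukeyTop C.M (UU C) fun A B => B ⊆ A := by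
  have hI : FN ∈ C.N := ufun C .F C.nil fun _ => Iff.rfl
  refine ⟨FG C, ⟨_, C.val_mem_M hI, fun z => ?_⟩, fun a ha => ?_, ?_⟩
  · rw [C.mem_val]
    constructor
    · rintro ⟨⟨⟨a, p⟩, h⟩, k, b, rfl⟩
      have k1 : finN a ∈ C.N := C.pairN_left k
      have k2 : realN (cap p a) ∈ C.N := C.pairN_right k
      refine ⟨a, fin_in C k1, ?_⟩
      change C.val (pairN (finN a) (realN (cap p a))) = _
      rw [C.val_pairN k, val_finN C k1, val_realN C k2, FG_eq C (a := a) (p := p) b h]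
    · rintro ⟨a, ha, rfl⟩
      obtain ⟨p, p1, p2, p3⟩ := added_fin C hA ha
      have k := C.pair_memN (finN_mem C ha) (cap_mem C ha p2)
      refine ⟨⟨(a, p), p3⟩, k, p1, ?_⟩
      change _ = C.val (pairN (finN a) (realN (cap p a)))
      rw [C.val_pairN k, val_finN C (finN_mem C ha), val_realN C (cap_mem C ha p2),
        FG_eq C p1 p3]
  · obtain ⟨p, p1, p2, p3⟩ := added_fin C hA ha
    rw [FG_eq C p1 p3]
    exact mem_UU C hA (cap_mem C ha p2) p1 ∅ a (by simp) p3 fun m _ h => h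
  · rintro S hS - h ⟨B, ⟨-, p, hp, hB⟩, h'⟩
    obtain ⟨T, t1, t2⟩ := hB.fin
    refine h ⟨t1.toFinset.filter fun x => enc x ∈ C.M, fun x hx => (Finset.mem_filter.1 hx).2,
      fun a ha y hy => Finset.mem_filter.2 ⟨t1.mem_toFinset.2 ?_, hS a ha y hy⟩⟩
    obtain ⟨q, q1, -, q3⟩ := added_fin C hA (hS a ha)
    obtain ⟨r, hr, r1, r2⟩ := C.dir p hp q q1
    have k : ∀ y ∈ a, y ∈ r.1.Λ := fun y hy => Ext.sub r2 (q3 y hy)
    exact t2 r r1 y (k y hy) fun m hm => h' a ha hm r hr k y hy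

theorem not_top (hf : FuseStmt) : ¬ TukeyTop C.M (UU C) fun A B => (B \ A).Finite := by
  rintro ⟨F, ⟨f, hf', hF⟩, hU, hT⟩
  obtain ⟨φ, hφ, rfl⟩ := C.mem_M.1 hf'
  obtain ⟨p, hp, hd⟩ := C.udense .tuk (C.one hφ) C.top fun q _ => tukey_dense hf φ q
  obtain ⟨q, hq, q1, q2⟩ := C.cof p hp
  rcases hd with ⟨y, hb⟩ | ⟨y, X, B, w1, w2, w3⟩
  · obtain ⟨x, hx, y, hb, rfl⟩ := C.uwit .bad (C.two q2 hφ)
      ⟨_, y, by
        simp only [List.getD_cons_zero, dC_cN]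
        exact fun r hr => hb r (hr.trans q1), rfl⟩
    simp only [List.getD_cons_zero, dC_cN] at hb
    obtain ⟨a, p', b, c⟩ := hU _ (fin_in C hx)
    have m := (hF _).2 ⟨_, fin_in C hx, rfl⟩
    rw [← val_finN C hx, ← val_realN C a, ← C.val_pairN (C.pair_memN hx a),
      C.val_mem_iff (C.pair_memN hx a) hφ] at m
    obtain ⟨p'', b', c'⟩ := m
    obtain ⟨r, _, r1, r2, r3⟩ := C.dir3 hq b b'
    exact hb r r1 ⟨_, c'.mono r3, c.mono r2⟩
  · obtain ⟨x, hx, y, X, B, ⟨w1, w2, w3⟩, rfl⟩ := C.uwit .wit (C.two q2 hφ)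
      ⟨_, y, X, B, by
        simp only [List.getD_cons_zero, dC_cN]
        exact ⟨w1, w2.mono q1, fun k => ⟨FMem.mono (w3 k).1 q1, (w3 k).2⟩⟩, rfl⟩
    simp only [List.getD_cons_zero, dC_cN] at w2 w3
    have s1 := C.pairN_left hx
    have s2 := C.pairN_left (C.pairN_right hx)
    have s3 := C.pairN_right (C.pairN_right hx)
    have a1 : ∀ j, finN {y j} ∈ C.N := C.setN_child s1
    have a2 : ∀ j, realN (X j) ∈ C.N := C.setN_child s2
    have hE : ∀ j, F {y j} = X j := by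
      intro j
      have m := (C.val_mem_iff (C.pair_memN (a1 j) (a2 j)) hφ).2 ⟨q, hq, (w3 j).1⟩
      rw [C.val_pairN (C.pair_memN (a1 j) (a2 j)), val_finN C (a1 j), val_realN C (a2 j)] at m
      obtain ⟨A, _, e⟩ := (hF _).1 m
      rw [ZFSet.pair_inj] at e
      rw [encF_inj e.1, enc_inj e.2]
    refine hT (range fun j => {y j}) ?_ ⟨_, C.val_mem_M s1, fun z => ?_⟩ ?_
      ⟨B, ⟨s3, q, hq, w2⟩, ?_⟩
    · rintro _ ⟨j, rfl⟩
      exact fin_in C (a1 j)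
    · rw [C.mem_val_setN s1]
      constructor
      · rintro ⟨j, rfl⟩
        exact ⟨_, ⟨j, rfl⟩, val_finN C (a1 j)⟩
      · rintro ⟨_, ⟨j, rfl⟩, rfl⟩
        exact ⟨j, (val_finN C (a1 j)).symm⟩
    · rintro ⟨b, -, hb⟩
      exact (infinite_range_of_injective w1) (b.finite_toSet.subset (by
        rintro _ ⟨j, rfl⟩
        exact hb _ ⟨j, rfl⟩ (Finset.mem_singleton_self _)))
    · rintro _ ⟨j, rfl⟩
      simp only [hE]
      exact (w3 j).2

end model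

theorem model (hA : AddStmt) (hF : FuseStmt) : ∃ M : ZFSet.{0}, ModelZF M ∧ AC M ∧
    ∃ U, Ultra M U ∧ TukeyTop M U (fun A B => B ⊆ A) ∧
      ¬ TukeyTop M U (fun A B => (B \ A).Finite) := by
  obtain ⟨C⟩ := exists_ctx UR.ev UD.ev
  exact ⟨C.M, C.modelZF, C.choice, UU C, ultra C hA, top C hA, not_top C hF⟩

end Pool.Agent.Lib.MP_8fdcc7_lc.Q2
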